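import Pool.Agent.Helper642.FreeResP

/-!
# Finite quotients of prime exponent which detect abelian subgroups

Owner helper650.
-/

set_option autoImplicit false

namespace Pool.Agent.Run7.h650.GM

open Pool.Agent.Helper642.FreeResP
open scoped commutatorElement

/-- unitriangular matrices over `ZMod p` of size at most `p` have exponent `p` -/
theorem UT_pow_p {p : ℕ} [hp : Fact p.Prime] {n : ℕ} (hn : n ≤ p)
    {M : Matrix (Fin n) (Fin n) (ZMod p)} (hM : UT M) : M ^ p = 1 := by
  have hX : ∀ a b, b ≤ a → (M - 1) a b = 0 := by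
    intro a b h
    rcases eq_or_lt_of_le h with rfl | h
    · simp [hM.1]
    · rw [Matrix.sub_apply, hM.2 a b h, Matrix.one_apply_ne (ne_of_gt h), sub_zero]
  have hn : (M - 1) ^ p = 0 := by
    ext a b
    rw [strict_pow hX p a b]
    · rfl
    · have := b.2
      omega
  rcases Nat.eq_zero_or_pos n with h0 | h0
  · subst h0
    ext a; exact a.elim0
  · have : Nonempty (Fin n) := ⟨⟨0, h0⟩⟩
    have h2 : M = (M - 1) + 1 := by simp
    rw [h2, add_pow_char_of_commute p (Commute.one_right _), hn, one_pow, zero_add]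

theorem PG_pow_p {p : ℕ} [hp : Fact p.Prime] {n : ℕ} (hn : n ≤ p) (y : PG p n) : y ^ p = 1 := by
  ext1
  rw [Subgroup.coe_pow]
  ext1
  rw [Units.val_pow_eq_pow_val, UT_pow_p hn y.2]; rfl

/-- **free groups are residually finite of exponent `p`**, for all large primes `p` depending on the
element -/
theorem detect {α : Type} (x : FreeGroup α) (hx : x ≠ 1) :
    ∃ p0 : ℕ, ∀ p : ℕ, p.Prime → p0 ≤ p → ∃ (P : Type) (_ : Group P) (_ : Finite P)
      (f : FreeGroup α →* P), (∀ y : P, y ^ p = 1) ∧ f x ≠ 1 := by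
  classical
  obtain ⟨L, ⟨hL1, hL2⟩, rfl⟩ := exists_syl x
  let m : ℤ := (L.map Prod.snd).prod
  have hm : m ≠ 0 := by
    intro h
    rw [List.prod_eq_zero_iff] at h
    obtain ⟨s, hs, h0⟩ := List.mem_map.1 h
    exact hL1 s hs h0
  refine ⟨m.natAbs + 1 + (L.length + 1), fun p hp2 hp1 => ?_⟩
  have hpf : Fact p.Prime := ⟨hp2⟩
  have hpm : (m : ZMod p) ≠ 0 := by
    rw [Ne, ZMod.intCast_zmod_eq_zero_iff_dvd]
    intro h
    have := Int.natAbs_dvd_natAbs.2 h
    rw [Int.natAbs_natCast] at this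
    have := Nat.le_of_dvd (Int.natAbs_pos.2 hm) this
    omega
  have hw : (L.map Prod.fst).IsChain (· ≠ ·) := by
    rw [List.isChain_map]; exact hL2
  let a : α → PG p (L.length + 1) := fun i =>
    ⟨UM p (L.length + 1) (L.map Prod.fst) hw i 1, UT_UM _ hw i 1⟩
  refine ⟨PG p (L.length + 1), inferInstance, inferInstance, FreeGroup.lift a,
    fun y => PG_pow_p (by omega) y, ?_⟩
  intro h
  have h2 : ((FreeGroup.lift a (ev L) : PG p (L.length + 1)) :
      (Matrix (Fin (L.length + 1)) (Fin (L.length + 1)) (ZMod p))ˣ) =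
      (L.map (fun s => UM p (L.length + 1) (L.map Prod.fst) hw s.1 s.2)).prod := by
    unfold ev
    rw [map_list_prod, List.map_map]
    have : (Subgroup.subtype (PG p (L.length + 1)))
        ((L.map (FreeGroup.lift a ∘ fun s => FreeGroup.of s.1 ^ s.2)).prod) =
        (L.map (fun s => UM p (L.length + 1) (L.map Prod.fst) hw s.1 s.2)).prod := by
      rw [map_list_prod, List.map_map]
      congr 1
      apply List.map_congr_left
      intro s _
      simp only [Function.comp, map_zpow, FreeGroup.lift_apply_of]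
      exact UM_zpow _ hw s.1 s.2
    exact this
  rw [h] at h2
  have h3 := (prod_entry (p := p) L hw L.length le_rfl).1 (Fin.last _) (by simp)
  rw [List.take_length, ← h2] at h3
  have h4 : L ≠ [] := by
    rintro rfl
    exact hx (by simp [ev])
  have h5 : (0 : Fin (L.length + 1)) ≠ Fin.last _ := by
    intro h
    have := congrArg Fin.val h
    simp at this
    exact h4 (List.length_eq_zero_iff.1 this.symm)
  have h6 : (1 : Matrix (Fin (L.length + 1)) (Fin (L.length + 1)) (ZMod p)) 0 (Fin.last _) = 0 :=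
    Matrix.one_apply_ne h5
  have h7 : (m : ZMod p) = (L.map (fun s => (s.2 : ZMod p))).prod := by
    change (((L.map Prod.snd).prod : ℤ) : ZMod p) = _
    rw [Int.cast_list_prod, List.map_map]
    rfl
  rw [← h7] at h3
  apply hpm
  rw [← h3]
  exact h6

/-- abelianizations of free groups are torsion-free -/
theorem ab_tf {X : Type} (x : FreeGroup X) (k : ℤ) (hk : k ≠ 0)
    (h : x ^ k ∈ commutator (FreeGroup X)) : x ∈ commutator (FreeGroup X) := by
  have h1 : (Abelianization.of x) ^ k = 1 := by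
    rw [← map_zpow]
    exact (QuotientGroup.eq_one_iff _).2 h
  have h2 : Abelianization.of x = 1 := by
    obtain ⟨y, hy⟩ : ∃ y : FreeAbelianGroup X, y = Additive.ofMul (Abelianization.of x) := ⟨_, rfl⟩
    have h3 : k • y = 0 := by
      rw [hy]
      exact h1
    have h4 : k • (FreeAbelianGroup.equivFinsupp X y) = 0 := by
      rw [← map_zsmul, h3, map_zero]
    have h5 : FreeAbelianGroup.equivFinsupp X y = 0 := by
      ext i
      have h6 := DFunLike.congr_fun h4 i
      rw [Finsupp.smul_apply, Finsupp.zero_apply, smul_eq_zero] at h6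
      exact h6.resolve_left hk
    have h6 : y = 0 := (FreeAbelianGroup.equivFinsupp X).injective (by rw [h5, map_zero])
    rw [hy] at h6
    exact h6
  exact (QuotientGroup.eq_one_iff _).1 h2

theorem ab_tf' {H : Type} [Group H] [IsFreeGroup H] (x : H) (k : ℤ) (hk : k ≠ 0)
    (h : x ^ k ∈ commutator H) : x ∈ commutator H := by
  have e := IsFreeGroup.toFreeGroup H
  have key : ∀ y : H, y ∈ commutator H ↔ e y ∈ commutator (FreeGroup (IsFreeGroup.Generators H)) := by
    intro y
    have h1 : (commutator H).map e.toMonoidHom = commutator (FreeGroup (IsFreeGroup.Generators H)) := by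
      rw [commutator_def, commutator_def, Subgroup.map_commutator, ← MonoidHom.range_eq_map,
        MonoidHom.range_eq_top.2 e.surjective]
    rw [← h1]
    constructor
    · intro hy
      exact ⟨y, hy, rfl⟩
    · rintro ⟨z, hz, h2⟩
      rwa [← e.injective h2]
  rw [key] at h ⊢
  rw [map_zpow] at h
  exact ab_tf _ k hk h

/-- the powers of an element `b` outside of the normal subgroup `W` of a free group are not in
`[W, W]` -/
theorem free_comm {F : Type} [Group F] [IsFreeGroup F] (W : Subgroup F) [hW : W.Normal] (b : F)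
    (hb : b ∉ W) (k : ℤ) (h : b ^ k ∈ ⁅W, W⁆) : k = 0 := by
  by_contra hk
  apply hb
  obtain ⟨H, hH⟩ : ∃ H : Subgroup F, H = W ⊔ Subgroup.zpowers b := ⟨_, rfl⟩
  have hWH : W ≤ H := by
    rw [hH]
    exact le_sup_left
  have hbH : b ∈ H := by
    rw [hH]
    exact Subgroup.mem_sup_right (Subgroup.mem_zpowers b)
  have h1 : (⟨b, hbH⟩ : H) ^ k ∈ commutator H := by
    have h2 : (commutator H).map H.subtype = ⁅H, H⁆ := by
      rw [commutator_def, Subgroup.map_commutator, ← MonoidHom.range_eq_map, Subgroup.range_subtype]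
    have h3 : b ^ k ∈ (commutator H).map H.subtype := by
      rw [h2]
      exact Subgroup.commutator_mono hWH hWH h
    obtain ⟨z, hz, h4⟩ := h3
    have h5 : z = (⟨b, hbH⟩ : H) ^ k := Subtype.ext h4
    rwa [← h5]
  have h2 := ab_tf' _ k hk h1
  -- the quotient of `H` by `W` is cyclic
  have h3 : commutator H ≤ W.subgroupOf H := by
    rw [commutator_def, Subgroup.commutator_le]
    have key : ∀ x : H, ∃ (w : F) (i : ℤ), w ∈ W ∧ (x : F) = w * b ^ i := by
      intro x
      have hx : (x : F) ∈ W ⊔ Subgroup.zpowers b := hH ▸ x.2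
      rw [Subgroup.mem_sup_of_normal_left] at hx
      obtain ⟨w, hw, _, ⟨i, rfl⟩, h⟩ := hx
      exact ⟨w, i, hw, h.symm⟩
    intro x _ y _
    obtain ⟨w, i, hw, hx⟩ := key x
    obtain ⟨v, j, hv, hy⟩ := key y
    rw [Subgroup.mem_subgroupOf]
    have h4 : ((⁅x, y⁆ : H) : F) = ⁅w * b ^ i, v * b ^ j⁆ := by
      rw [← hx, ← hy]
      rfl
    rw [h4, ← QuotientGroup.eq_one_iff]
    have h5 : ((⁅w * b ^ i, v * b ^ j⁆ : F) : F ⧸ W) =
        ⁅((w * b ^ i : F) : F ⧸ W), ((v * b ^ j : F) : F ⧸ W)⁆ := rfl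
    rw [h5, QuotientGroup.mk_mul, QuotientGroup.mk_mul, (QuotientGroup.eq_one_iff w).2 hw,
      (QuotientGroup.eq_one_iff v).2 hv, one_mul, one_mul, commutatorElement_eq_one_iff_mul_comm]
    show ((b : F ⧸ W)) ^ i * ((b : F ⧸ W)) ^ j = _
    rw [← zpow_add, add_comm, zpow_add]
    rfl
  exact h3 h2

/-- abelian subgroups of free groups are cyclic -/
theorem free_ab {F : Type} [Group F] [IsFreeGroup F] (H : Subgroup F)
    (hH : ∀ x ∈ H, ∀ y ∈ H, x * y = y * x) : ∃ r ∈ H, ∀ z ∈ H, ∃ i : ℤ, z = r ^ i := by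
  let Y := IsFreeGroup.Generators H
  let e : H ≃* FreeGroup Y := IsFreeGroup.toFreeGroup H
  have hsub : Subsingleton Y := by
    constructor
    intro x y
    by_contra hxy
    have h1 : (FreeGroup.of x : FreeGroup Y) * FreeGroup.of y
        = FreeGroup.of y * FreeGroup.of x := by
      apply e.symm.injective
      rw [map_mul, map_mul]
      exact Subtype.ext (hH _ (e.symm (FreeGroup.of x)).2 _ (e.symm (FreeGroup.of y)).2)
    classical
    have h2 := congrArg FreeGroup.toWord h1
    simp only [FreeGroup.toWord_mul, FreeGroup.toWord_of] at h2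
    have h3 : FreeGroup.reduce ([(x, true)] ++ [(y, true)]) = [(x, true), (y, true)] := by
      simp [FreeGroup.reduce, hxy]
    have h4 : FreeGroup.reduce ([(y, true)] ++ [(x, true)]) = [(y, true), (x, true)] := by
      simp [FreeGroup.reduce]
    rw [h3, h4] at h2
    simp at h2
    exact hxy h2.1
  have hcyc : ∃ r : FreeGroup Y, ∀ z : FreeGroup Y, ∃ i : ℤ, z = r ^ i := by
    rcases isEmpty_or_nonempty Y with hY | ⟨⟨y⟩⟩
    · exact ⟨1, fun z => ⟨0, Subsingleton.elim _ _⟩⟩
    · refine ⟨FreeGroup.of y, fun z => ?_⟩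
      have hz : z ∈ Subgroup.closure (Set.range (FreeGroup.of : Y → FreeGroup Y)) := by
        rw [FreeGroup.closure_range_of]; trivial
      have hr : Set.range (FreeGroup.of : Y → FreeGroup Y) = {FreeGroup.of y} := by
        ext w
        constructor
        · rintro ⟨y', rfl⟩
          rw [Subsingleton.elim y' y]; rfl
        · rintro rfl
          exact ⟨y, rfl⟩
      rw [hr] at hz
      obtain ⟨i, hi⟩ := Subgroup.mem_closure_singleton.mp hz
      exact ⟨i, hi.symm⟩
  obtain ⟨r, hr⟩ := hcyc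
  refine ⟨((e.symm r : H) : F), (e.symm r).2, fun z hz => ?_⟩
  obtain ⟨i, hi⟩ := hr (e ⟨z, hz⟩)
  refine ⟨i, ?_⟩
  have h1 : (⟨z, hz⟩ : H) = (e.symm r) ^ i := by
    apply e.injective
    rw [map_zpow, MulEquiv.apply_symm_apply, hi]
  have := congrArg Subtype.val h1
  simpa using this

/-- there is a homomorphism from `U` to a finite group of exponent `p` such that the kernel `K` meets
the abelian group `E` in the `p`-th powers of `E`, and such that `E` and `[K, K]` intersect trivially -/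
def Dt (p : ℕ) {U : Type} [Group U] (E : Subgroup U) : Prop :=
  ∃ (Q : Type) (_ : Group Q) (_ : Finite Q) (f : U →* Q), (∀ y : Q, y ^ p = 1) ∧
    (∀ x ∈ E, f x = 1 → ∃ y ∈ E, y ^ p = x) ∧ (∀ x ∈ E, x ∈ ⁅f.ker, f.ker⁆ → x = 1)

/-- **detection by homomorphisms to free groups** -/
theorem Dt_of_free {U : Type} [Group U] (r : ℕ) : ∀ (E : Subgroup U),
    (∀ x ∈ E, ∀ y ∈ E, x * y = y * x) → ∀ (X : Fin r → Type) (φ : ∀ i, U →* FreeGroup (X i)),
    (∀ x ∈ E, (∀ i, φ i x = 1) → x = 1) → ∃ p0 : ℕ, ∀ p : ℕ, p.Prime → p0 ≤ p → Dt p E := by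
  induction r with
  | zero =>
    intro E hab X φ hφ
    refine ⟨0, fun p hp _ => ⟨PUnit, inferInstance, inferInstance, 1, fun y => rfl, ?_, ?_⟩⟩
    · intro x hx _
      exact ⟨1, E.one_mem, by rw [one_pow, hφ x hx fun i => i.elim0]⟩
    · intro x hx _
      exact hφ x hx fun i => i.elim0
  | succ r ih =>
    intro E hab X φ hφ
    obtain ⟨E1, hE1⟩ : ∃ E1 : Subgroup U, E1 = E ⊓ (φ 0).ker := ⟨_, rfl⟩
    have hle : E1 ≤ E := by
      rw [hE1]
      exact inf_le_left
    obtain ⟨p1, hp1⟩ := ih E1 (fun x hx y hy => hab x (hle hx) y (hle hy)) (fun i => X i.succ)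
      (fun i => φ i.succ) (by
        intro x hx h
        rw [hE1] at hx
        refine hφ x hx.1 fun i => ?_
        refine Fin.cases ?_ ?_ i
        · exact hx.2
        · exact h)
    obtain ⟨_, ⟨e1, he1, rfl⟩, hcyc⟩ := free_ab (E.map (φ 0)) (by
      rintro _ ⟨x, hx, rfl⟩ _ ⟨y, hy, rfl⟩
      rw [← map_mul, ← map_mul, hab x hx y hy])
    have hcyc : ∀ x ∈ E, ∃ j : ℤ, φ 0 x = (φ 0 e1) ^ j := fun x hx => hcyc _ ⟨x, hx, rfl⟩
    by_cases hb : φ 0 e1 = 1
    · have hEE : E1 = E := by
        rw [hE1]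
        refine inf_eq_left.2 fun x hx => ?_
        obtain ⟨j, hj⟩ := hcyc x hx
        rw [MonoidHom.mem_ker, hj, hb, one_zpow]
      rw [← hEE]
      exact ⟨p1, hp1⟩
    · obtain ⟨p2, hp2⟩ := detect (φ 0 e1) hb
      refine ⟨max p1 p2, fun p hp hpp => ?_⟩
      obtain ⟨Q1, _, _, f1, h1, h2, h3⟩ := hp1 p hp ((le_max_left _ _).trans hpp)
      obtain ⟨Q2, _, _, f2, g1, g2⟩ := hp2 p hp ((le_max_right _ _).trans hpp)
      have hpf : Fact p.Prime := ⟨hp⟩
      have hord : ∀ j : ℤ, f2 (φ 0 e1) ^ j = 1 → (p : ℤ) ∣ j := by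
        intro j hj
        have h4 : orderOf (f2 (φ 0 e1)) = p := orderOf_eq_prime (g1 _) g2
        rw [← h4]
        exact orderOf_dvd_iff_zpow_eq_one.2 hj
      refine ⟨Q2 × Q1, inferInstance, inferInstance, (f2.comp (φ 0)).prod f1, ?_, ?_, ?_⟩
      · rintro ⟨a, b⟩
        exact Prod.ext (g1 a) (h1 b)
      · intro x hx hfx
        have k1 : f2 (φ 0 x) = 1 := congrArg Prod.fst hfx
        have k2 : f1 x = 1 := congrArg Prod.snd hfx
        obtain ⟨j, hj⟩ := hcyc x hx
        rw [hj, map_zpow] at k1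
        obtain ⟨m, rfl⟩ := hord j k1
        have k3 : f1 (x * (e1 ^ ((p : ℤ) * m))⁻¹) = 1 := by
          rw [map_mul, map_inv, map_zpow, zpow_mul, zpow_natCast, h1, one_zpow, inv_one, mul_one, k2]
        have k4 : x * (e1 ^ ((p : ℤ) * m))⁻¹ ∈ E1 := by
          rw [hE1]
          refine ⟨E.mul_mem hx (E.inv_mem (E.zpow_mem he1 _)), ?_⟩
          show φ 0 _ = 1
          rw [map_mul, map_inv, map_zpow, hj, mul_inv_cancel]
        obtain ⟨y, hy, k5⟩ := h2 _ k4 k3
        refine ⟨y * e1 ^ m, E.mul_mem (hle hy) (E.zpow_mem he1 _), ?_⟩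
        have k6 : Commute y (e1 ^ m) := hab _ (hle hy) _ (E.zpow_mem he1 _)
        rw [k6.mul_pow, k5, ← zpow_natCast, ← zpow_mul, mul_comm m (p : ℤ)]
        group
      · intro x hx hxc
        have k0 : ∀ z ∈ ((f2.comp (φ 0)).prod f1).ker, φ 0 z ∈ f2.ker ∧ z ∈ f1.ker := by
          intro z hz
          exact ⟨congrArg Prod.fst hz, congrArg Prod.snd hz⟩
        obtain ⟨j, hj⟩ := hcyc x hx
        have k1 : φ 0 x ∈ ⁅f2.ker, f2.ker⁆ := by
          have k2 : φ 0 x ∈ (⁅((f2.comp (φ 0)).prod f1).ker, ((f2.comp (φ 0)).prod f1).ker⁆).map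
              (φ 0) := ⟨x, hxc, rfl⟩
          rw [Subgroup.map_commutator] at k2
          refine Subgroup.commutator_mono ?_ ?_ k2
          · rintro _ ⟨z, hz, rfl⟩
            exact (k0 z hz).1
          · rintro _ ⟨z, hz, rfl⟩
            exact (k0 z hz).1
        have k3 : x ∈ ⁅f1.ker, f1.ker⁆ :=
          Subgroup.commutator_mono (fun z hz => (k0 z hz).2) (fun z hz => (k0 z hz).2) hxc
        rw [hj] at k1
        have k4 := free_comm f2.ker (φ 0 e1) g2 j k1
        refine h3 x ?_ k3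
        rw [hE1]
        refine ⟨hx, ?_⟩
        show φ 0 x = 1
        rw [hj, k4, zpow_zero]

end Pool.Agent.Run7.h650.GM
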