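import Pool.Agent.Helper89.Count
import Pool.Agent.R941.FJ.Hyper
import Pool.Agent.R941.FJ.Lfk
import Pool.Agent.Run7.h650.GM.Det

/-!
# Characteristic subgroups of finite index and cores

Owner helper650.
-/

set_option autoImplicit false

namespace Pool.Agent.Run7.h650.GM

open Pool.Agent.Y110.FJ

section index

variable {G : Type} [Group G]

/-- intersections of subgroups of bounded index in a finitely generated group -/
theorem sInf_relIndex (U : Subgroup G) (hU : U.FG) (S : Set (Subgroup G)) (B : ℕ)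
    (hS : ∀ H ∈ S, H.relIndex U ≠ 0 ∧ H.relIndex U ≤ B) : (sInf S).relIndex U ≠ 0 := by
  classical
  have hfg : Group.FG U := (Group.fg_iff_subgroup_fg U).2 hU
  obtain ⟨T, hT⟩ := Group.fg_def.1 hfg
  obtain ⟨S', hS'⟩ : ∃ S' : Set (Subgroup U), S' = (fun H : Subgroup G => H.subgroupOf U) '' S := ⟨_, rfl⟩
  have hfin : S'.Finite := by
    have h1 : S' ⊆ ⋃ b ∈ Finset.Icc 1 B, {H : Subgroup U | H.index = b} := by
      rw [hS']
      rintro _ ⟨H, hH, rfl⟩
      obtain ⟨h2, h3⟩ := hS H hH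
      simp only [Set.mem_iUnion]
      exact ⟨(H.subgroupOf U).index, by
        rw [Finset.mem_Icc]
        exact ⟨Nat.pos_of_ne_zero h2, h3⟩, rfl⟩
    refine Set.Finite.subset ?_ h1
    apply Set.Finite.biUnion (Finset.finite_toSet _)
    intro b hb
    have hb' : b ≠ 0 := by
      have := Finset.mem_Icc.mp (Finset.mem_coe.mp hb); omega
    exact Set.finite_coe_iff.mp (Pool.Agent.Helper89.Count.index_card_le T hT b hb').1
  have : Finite S' := hfin
  have h1 : (sInf S).subgroupOf U = ⨅ H : S', (H : Subgroup U) := by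
    ext x
    rw [Subgroup.mem_subgroupOf, Subgroup.mem_sInf, Subgroup.mem_iInf]
    constructor
    · rintro h ⟨H', hH'⟩
      rw [hS'] at hH'
      obtain ⟨H, hH, rfl⟩ := hH'
      exact h H hH
    · intro h H hH
      have h2 : H.subgroupOf U ∈ S' := by
        rw [hS']
        exact ⟨H, hH, rfl⟩
      exact h ⟨_, h2⟩
  show ((sInf S).subgroupOf U).index ≠ 0
  rw [h1]
  refine Subgroup.index_iInf_ne_zero ?_
  rintro ⟨H', hH'⟩
  rw [hS'] at hH'
  obtain ⟨H, hH, rfl⟩ := hH'
  exact (hS H hH).1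

/-- the subgroups of finite index in `U` from which the characteristic subgroup is formed -/
def Fs (p B : ℕ) (U : Subgroup G) : Set (Subgroup G) :=
  {K | K ≤ U ∧ (∀ u ∈ U, ∀ x ∈ K, u * x * u⁻¹ ∈ K) ∧ K.relIndex U ≠ 0 ∧ K.relIndex U ≤ B ∧
    ∀ x ∈ U, x ^ p ∈ K}

/-- the intersection of the normal subgroups of `U` of index at most `B` whose quotients have
exponent `p` -/
def Fc (p B : ℕ) (U : Subgroup G) : Subgroup G := sInf (Fs p B U)

theorem self_mem_Fs (p : ℕ) {B : ℕ} (hB : 1 ≤ B) (U : Subgroup G) : U ∈ Fs p B U := by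
  refine ⟨le_rfl, fun u hu x hx => U.mul_mem (U.mul_mem hu hx) (U.inv_mem hu), ?_, ?_,
    fun x hx => U.pow_mem hx p⟩
  · rw [Subgroup.relIndex_self]
    exact one_ne_zero
  · rwa [Subgroup.relIndex_self]

theorem Fc_le (p : ℕ) {B : ℕ} (hB : 1 ≤ B) (U : Subgroup G) : Fc p B U ≤ U :=
  sInf_le (self_mem_Fs p hB U)

theorem Fc_pow {p B : ℕ} {U : Subgroup G} {x : G} (hx : x ∈ U) : x ^ p ∈ Fc p B U :=
  (Subgroup.mem_sInf).2 fun _ hK => hK.2.2.2.2 x hx

theorem Fc_relIndex (p B : ℕ) (U : Subgroup G) (hU : U.FG) : (Fc p B U).relIndex U ≠ 0 :=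
  sInf_relIndex U hU _ B fun _ hK => ⟨hK.2.2.1, hK.2.2.2.1⟩

theorem relIndex_conj (g : G) (K U : Subgroup G) :
    (K.map (MulAut.conj g).toMonoidHom).relIndex (U.map (MulAut.conj g).toMonoidHom) =
      K.relIndex U :=
  Subgroup.relIndex_map_map_of_injective K U (MulAut.conj g).injective

theorem mem_map_conj {g x : G} {K : Subgroup G} :
    x ∈ K.map (MulAut.conj g).toMonoidHom ↔ g⁻¹ * x * g ∈ K := by
  constructor
  · rintro ⟨y, hy, rfl⟩
    have h1 : g⁻¹ * ((MulAut.conj g).toMonoidHom y) * g = y := by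
      show g⁻¹ * (g * y * g⁻¹) * g = y
      group
    rwa [h1]
  · intro h
    refine ⟨_, h, ?_⟩
    show g * (g⁻¹ * x * g) * g⁻¹ = x
    group

theorem Fc_conj {p B : ℕ} {U U' : Subgroup G} (g : G)
    (hU : U' = U.map (MulAut.conj g).toMonoidHom) {x : G} (hx : x ∈ Fc p B U) :
    g * x * g⁻¹ ∈ Fc p B U' := by
  refine (Subgroup.mem_sInf).2 fun K hK => ?_
  obtain ⟨h1, h2, h3, h4, h5⟩ := hK
  have hUU : U = U'.map (MulAut.conj g⁻¹).toMonoidHom := by
    rw [hU]
    ext y
    rw [mem_map_conj, mem_map_conj]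
    have : g⁻¹ * (g⁻¹⁻¹ * y * g⁻¹) * g = y := by group
    rw [this]
  have hK' : K.map (MulAut.conj g⁻¹).toMonoidHom ∈ Fs p B U := by
    refine ⟨?_, ?_, ?_, ?_, ?_⟩
    · rw [hUU]
      exact Subgroup.map_mono h1
    · intro u hu y hy
      rw [hUU, mem_map_conj] at hu
      rw [mem_map_conj] at hy ⊢
      have h6 := h2 _ hu _ hy
      have h7 : g⁻¹⁻¹ * u * g⁻¹ * (g⁻¹⁻¹ * y * g⁻¹) * (g⁻¹⁻¹ * u * g⁻¹)⁻¹ =
        g⁻¹⁻¹ * (u * y * u⁻¹) * g⁻¹ := by group
      rwa [h7] at h6
    · rw [hUU, relIndex_conj]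
      exact h3
    · rw [hUU, relIndex_conj]
      exact h4
    · intro y hy
      rw [hUU, mem_map_conj] at hy
      rw [mem_map_conj]
      have h6 := h5 _ hy
      have h7 : (g⁻¹⁻¹ * y * g⁻¹) ^ p = g⁻¹⁻¹ * y ^ p * g⁻¹ := by
        rw [inv_inv]
        exact conj_pow
      rwa [h7] at h6
  have h6 := (Subgroup.mem_sInf).1 hx _ hK'
  rw [mem_map_conj, inv_inv] at h6
  exact h6

theorem Fc_hom {p B : ℕ} {U : Subgroup G} {Q : Type} [Group Q] [Finite Q] (hQ : Nat.card Q ≤ B)
    (hexp : ∀ y : Q, y ^ p = 1) (f : U →* Q) {x : G} (hx : x ∈ Fc p B U) (hxU : x ∈ U) :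
    f ⟨x, hxU⟩ = 1 := by
  have hK : f.ker.map U.subtype ∈ Fs p B U := by
    have h0 : (f.ker.map U.subtype).subgroupOf U = f.ker := by
      rw [Subgroup.subgroupOf, Subgroup.comap_map_eq_self_of_injective U.subtype_injective]
    have h1 : (f.ker.map U.subtype).relIndex U = Nat.card f.range := by
      rw [Subgroup.relIndex, h0, Subgroup.index_ker]
    refine ⟨?_, ?_, ?_, ?_, ?_⟩
    · rintro _ ⟨y, _, rfl⟩
      exact y.2
    · rintro u hu _ ⟨y, hy, rfl⟩
      refine ⟨⟨u, hu⟩ * y * ⟨u, hu⟩⁻¹, ?_, rfl⟩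
      exact (inferInstance : f.ker.Normal).conj_mem y hy _
    · rw [h1]
      exact Nat.card_pos.ne'
    · rw [h1]
      exact (Subgroup.card_le_card_group f.range).trans hQ
    · intro y hy
      refine ⟨⟨y, hy⟩ ^ p, ?_, rfl⟩
      show f (⟨y, hy⟩ ^ p) = 1
      rw [map_pow, hexp]
  obtain ⟨y, hy, hyx⟩ := (Subgroup.mem_sInf).1 hx _ hK
  have h1 : y = ⟨x, hxU⟩ := Subtype.ext hyx
  rw [← h1]
  exact hy

end index

section core

variable {C : ∀ (G : Type) [Group G], Prop} {G : Type} [Group G]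

/-- the quotient of a normal subgroup by the core of a subgroup of finite index is locally finite -/
theorem core_index {K L : Subgroup G} [hK : K.Normal] (hfi : L.relIndex K ≠ 0)
    (U : Subgroup G) (hU : U.FG) (hUK : U ≤ K) : L.normalCore.relIndex U ≠ 0 := by
  have h1 : L.normalCore = sInf (Set.range fun g : G => L.map (MulAut.conj g).toMonoidHom) := by
    ext x
    rw [Subgroup.mem_sInf]
    constructor
    · rintro h _ ⟨g, rfl⟩
      show x ∈ L.map (MulAut.conj g).toMonoidHom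
      rw [mem_map_conj]
      have := h g⁻¹
      rwa [inv_inv] at this
    · intro h g
      have := h _ ⟨g⁻¹, rfl⟩
      simp only [mem_map_conj, inv_inv] at this
      exact this
  rw [h1]
  refine sInf_relIndex U hU _ (L.relIndex K) ?_
  rintro _ ⟨g, rfl⟩
  have h2 : (L.map (MulAut.conj g).toMonoidHom).relIndex K = L.relIndex K := by
    have h3 : K = K.map (MulAut.conj g).toMonoidHom := by
      ext x
      rw [mem_map_conj]
      constructor
      · intro hx
        have := hK.conj_mem x hx g⁻¹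
        rwa [inv_inv] at this
      · intro hx
        have := hK.conj_mem _ hx g
        have h4 : g * (g⁻¹ * x * g) * g⁻¹ = x := by group
        rwa [h4] at this
    conv_lhs => rw [h3]
    exact relIndex_conj g L K
  have h3 : (L.map (MulAut.conj g).toMonoidHom).relIndex K ≠ 0 := by rwa [h2]
  constructor
  · intro h
    exact h3 (Subgroup.relIndex_eq_zero_of_le_right hUK h)
  · rw [← h2]
    exact Subgroup.relIndex_le_of_le_right hUK h3

/-- **cores**: if `G ⧸ K` is in the class and `L` has finite index in `K`, then `G ⧸ core L` is in the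
class -/
theorem core_C (hC : ClosedE C) {K L : Subgroup G} [hK : K.Normal] (hle : L ≤ K)
    (hfi : L.relIndex K ≠ 0) (hQ : C (G ⧸ K)) : C (G ⧸ L.normalCore) := by
  obtain ⟨D, hD⟩ : ∃ D : Subgroup G, D = L.normalCore := ⟨_, rfl⟩
  have hDn : D.Normal := hD ▸ inferInstance
  have hDK : D ≤ K := by
    rw [hD]
    exact L.normalCore_le.trans hle
  suffices C (G ⧸ D) by
    subst hD
    exact this
  have hN : (K.map (QuotientGroup.mk' D)).Normal :=
    Subgroup.Normal.map inferInstance _ (QuotientGroup.mk'_surjective _)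
  refine Pool.Agent.R941.FJ.lfk hC (K.map (QuotientGroup.mk' D)) ?_ ?_
  · intro E hE hEK
    have hlift : ∀ e : E, ∃ k ∈ K, QuotientGroup.mk' D k = e := fun e => hEK e.2
    choose s hs1 hs2 using hlift
    have hEf : Finite E := hE
    obtain ⟨U, hU⟩ : ∃ U : Subgroup G, U = Subgroup.closure (Set.range s) := ⟨_, rfl⟩
    have hUfg : U.FG := by
      rw [hU]
      exact ⟨(Set.finite_range s).toFinset, by simp⟩
    have hUK : U ≤ K := by
      rw [hU, Subgroup.closure_le]
      rintro _ ⟨e, rfl⟩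
      exact hs1 e
    have h1 : D.relIndex U ≠ 0 := by
      rw [hD]
      exact core_index hfi U hUfg hUK
    have h2 : Finite (U.map (QuotientGroup.mk' D)) := by
      have h3 := Subgroup.relIndex_ker (K := U) (QuotientGroup.mk' D)
      rw [QuotientGroup.ker_mk'] at h3
      rw [h3] at h1
      exact Nat.finite_of_card_ne_zero h1
    have h3 : Subgroup.closure E ≤ U.map (QuotientGroup.mk' D) := by
      rw [Subgroup.closure_le]
      intro e he
      refine ⟨s ⟨e, he⟩, ?_, hs2 ⟨e, he⟩⟩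
      rw [hU]
      exact Subgroup.subset_closure ⟨_, rfl⟩
    exact Finite.of_injective _ (Subgroup.inclusion_injective h3)
  · exact Pool.Agent.R941.FJ.C_equiv hC.base (QuotientGroup.quotientQuotientEquivQuotient D K hDK) hQ

end core

end Pool.Agent.Run7.h650.GM
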