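import Pool.Agent.N24.TR.Tree

/-!
# Gluing finite quotients of the vertex groups of a group acting on a tree

Owner helper650.
-/

set_option autoImplicit false

namespace Pool.Agent.Run7.h650.GM

open SimpleGraph
open Pool.Agent.N24.TR (gam gam_mul gam_adj)

section sets

variable {E A B : Type} [Group E] [MulAction E A] [MulAction E B]

theorem card_orb (D : Subgroup E) (hA : ∀ a : A, MulAction.stabilizer E a = D) :
    Nat.card A = Nat.card (MulAction.orbitRel.Quotient E A) * Nat.card (E ⧸ D) := by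
  have e : A ≃ (MulAction.orbitRel.Quotient E A) × (E ⧸ D) :=
    (MulAction.selfEquivSigmaOrbitsQuotientStabilizer E A).trans
      ((Equiv.sigmaCongrRight fun ω => Subgroup.quotientEquivOfEq (hA _)).trans
        (Equiv.sigmaEquivProd _ _))
  rw [Nat.card_congr e, Nat.card_prod]

/-- finite sets with an action such that all stabilizers are equal to `D` are isomorphic if they
have the same cardinality -/
theorem equiv_of_stab [Finite A] [Finite B] (D : Subgroup E)
    (hA : ∀ a : A, MulAction.stabilizer E a = D) (hB : ∀ b : B, MulAction.stabilizer E b = D)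
    (hc : Nat.card A = Nat.card B) : ∃ f : A ≃ B, ∀ (e : E) (a : A), f (e • a) = e • f a := by
  classical
  rcases isEmpty_or_nonempty A with hA0 | ⟨⟨a0⟩⟩
  · have hB0 : IsEmpty B := by
      rw [Nat.card_of_isEmpty] at hc
      exact (Finite.card_eq_zero_iff).1 hc.symm
    exact ⟨Equiv.equivOfIsEmpty A B, fun e a => (hA0.false a).elim⟩
  have hD : 0 < Nat.card (E ⧸ D) := by
    have : Finite (E ⧸ D) := by
      rw [← hA a0]
      exact Finite.of_equiv _ (MulAction.orbitEquivQuotientStabilizer E a0)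
    exact Nat.card_pos
  have hω : Nat.card (MulAction.orbitRel.Quotient E A) =
      Nat.card (MulAction.orbitRel.Quotient E B) := by
    have h1 := card_orb D hA
    have h2 := card_orb D hB
    rw [hc, h2] at h1
    exact (Nat.eq_of_mul_eq_mul_right hD h1).symm
  have : Finite (MulAction.orbitRel.Quotient E A) := Quotient.finite _
  have : Finite (MulAction.orbitRel.Quotient E B) := Quotient.finite _
  let ε : MulAction.orbitRel.Quotient E A ≃ MulAction.orbitRel.Quotient E B :=
    (Finite.equivFinOfCardEq hω).trans (Finite.equivFin _).symm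
  have hs : ∀ a : A, ∃ s : E, s • (Quotient.mk (MulAction.orbitRel E A) a).out = a := by
    intro a
    have h1 : (MulAction.orbitRel E A).r ((Quotient.mk (MulAction.orbitRel E A) a).out) a :=
      Quotient.exact (Quotient.out_eq _)
    have h2 := (MulAction.orbitRel E A).symm h1
    exact h2
  choose s hs using hs
  have hmk : ∀ (e : E) (a : A), (Quotient.mk (MulAction.orbitRel E A) (e • a)) =
      Quotient.mk (MulAction.orbitRel E A) a := fun e a => Quotient.sound ⟨e, rfl⟩
  have hmkB : ∀ (e : E) (b : B), (Quotient.mk (MulAction.orbitRel E B) (e • b)) =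
      Quotient.mk (MulAction.orbitRel E B) b := fun e a => Quotient.sound ⟨e, rfl⟩
  let f : A → B := fun a => s a • (ε (Quotient.mk _ a)).out
  have hf : ∀ (e : E) (a : A), f (e • a) = e • f a := by
    intro e a
    show s (e • a) • (ε (Quotient.mk _ (e • a))).out = e • (s a • (ε (Quotient.mk _ a)).out)
    rw [hmk]
    have h1 : (s a)⁻¹ * e⁻¹ * s (e • a) ∈ D := by
      rw [← hA (Quotient.mk (MulAction.orbitRel E A) a).out, MulAction.mem_stabilizer_iff, mul_smul,
        mul_smul]
      have h2 := hs (e • a)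
      rw [hmk] at h2
      rw [h2, inv_smul_smul, inv_smul_eq_iff, hs]
    rw [← hB ((ε (Quotient.mk (MulAction.orbitRel E A) a)).out), MulAction.mem_stabilizer_iff,
      mul_smul, mul_smul, inv_smul_eq_iff, inv_smul_eq_iff] at h1
    exact h1
  have hinj : Function.Injective f := by
    intro a b hab
    have h1 : Quotient.mk (MulAction.orbitRel E A) a = Quotient.mk (MulAction.orbitRel E A) b := by
      apply ε.injective
      have h2 : Quotient.mk (MulAction.orbitRel E B) (f a) = Quotient.mk (MulAction.orbitRel E B) (f b) := by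
        rw [hab]
      have h3 : ∀ a, Quotient.mk (MulAction.orbitRel E B) (f a) = ε (Quotient.mk _ a) := by
        intro a
        show Quotient.mk _ (s a • _) = _
        rw [hmkB]
        exact Quotient.out_eq _
      rwa [h3, h3] at h2
    have h2 : (s b)⁻¹ * s a ∈ D := by
      rw [← hB ((ε (Quotient.mk (MulAction.orbitRel E A) a)).out), MulAction.mem_stabilizer_iff,
        mul_smul, inv_smul_eq_iff]
      have h3 : s a • (ε (Quotient.mk _ a)).out = s b • (ε (Quotient.mk _ b)).out := hab
      rw [← h1] at h3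
      exact h3
    rw [← hA (Quotient.mk (MulAction.orbitRel E A) a).out, MulAction.mem_stabilizer_iff, mul_smul,
      inv_smul_eq_iff, hs, h1, hs] at h2
    exact h2
  exact ⟨Equiv.ofBijective f (hinj.bijective_of_nat_card_le hc.ge), hf⟩

end sets

section free

variable {K W : Type} [Group K] [MulAction K W]

/-- a free action of `Stab w / F` on a finite set with `n` elements -/
theorem exists_free (F : Subgroup K) (w : W)
    (hn : ∀ g : K, g • w = w → ∀ x ∈ F, g * x * g⁻¹ ∈ F) (n : ℕ) (hn0 : n ≠ 0)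
    (hdvd : F.relIndex (MulAction.stabilizer K w) ∣ n) :
    ∃ l : K → Equiv.Perm (Fin n), (∀ x y, x • w = w → y • w = w → l (x * y) = l x * l y) ∧
      ∀ x i, x • w = w → (l x i = i ↔ x ∈ F) := by
  classical
  obtain ⟨m, hm⟩ := hdvd
  have hm0 : m ≠ 0 := by
    rintro rfl
    exact hn0 (by rw [hm, mul_zero])
  have hi0 : F.relIndex (MulAction.stabilizer K w) ≠ 0 := by
    intro h
    rw [h, zero_mul] at hm
    exact hn0 hm
  let S := MulAction.stabilizer K w
  let Q := S ⧸ (F.subgroupOf S)
  have hQ : Nat.card Q = F.relIndex S := rfl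
  have : Finite Q := Nat.finite_of_card_ne_zero (by rw [hQ]; exact hi0)
  have hc : Nat.card (Q × Fin m) = n := by
    rw [Nat.card_prod, hQ, Nat.card_fin, hm]
  let e : (Q × Fin m) ≃ Fin n := Finite.equivFinOfCardEq hc
  let a : S → Equiv.Perm (Q × Fin m) := fun x => Equiv.prodCongr (MulAction.toPerm x) (Equiv.refl _)
  have ha : ∀ x y : S, a (x * y) = a x * a y := by
    intro x y
    apply Equiv.ext
    rintro ⟨q, i⟩
    exact Prod.ext (mul_smul x y q) rfl
  let l : K → Equiv.Perm (Fin n) := fun x =>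
    if hx : x • w = w then (e.symm.trans (a ⟨x, hx⟩)).trans e else 1
  have hl : ∀ x (hx : x • w = w) i, l x i = e (a ⟨x, hx⟩ (e.symm i)) := by
    intro x hx i
    simp only [l, dif_pos hx]
    rfl
  refine ⟨l, fun x y hx hy => ?_, fun x i hx => ?_⟩
  · apply Equiv.ext
    intro i
    have hxy : (x * y) • w = w := by rw [mul_smul, hy, hx]
    rw [Equiv.Perm.mul_apply, hl (x * y) hxy, hl y hy, hl x hx, Equiv.symm_apply_apply]
    have h1 : a ⟨x * y, hxy⟩ = a ⟨x, hx⟩ * a ⟨y, hy⟩ := ha ⟨x, hx⟩ ⟨y, hy⟩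
    rw [h1]
    rfl
  · rw [hl x hx, ← Equiv.eq_symm_apply]
    obtain ⟨⟨q, j⟩, hq⟩ : ∃ z, z = e.symm i := ⟨_, rfl⟩
    rw [← hq]
    obtain ⟨y, rfl⟩ := QuotientGroup.mk_surjective q
    have h1 : a ⟨x, hx⟩ (QuotientGroup.mk y, j) = (QuotientGroup.mk y, j) ↔
        (QuotientGroup.mk ((⟨x, hx⟩ : S) * y) : Q) = QuotientGroup.mk y := by
      constructor
      · intro h
        exact congrArg Prod.fst h
      · intro h
        exact Prod.ext h rfl
    rw [h1, QuotientGroup.eq, Subgroup.mem_subgroupOf]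
    have hy : (y : K) • w = w := y.2
    constructor
    · intro h
      have h2 : ((y : K))⁻¹ * x⁻¹ * y ∈ F := by
        have h3 : ((((⟨x, hx⟩ : S) * y)⁻¹ * y : S) : K) = ((y : K))⁻¹ * x⁻¹ * y := by
          show (x * (y : K))⁻¹ * (y : K) = _
          group
        rwa [h3] at h
      have h3 := hn y hy _ h2
      have h4 : (y : K) * (((y : K))⁻¹ * x⁻¹ * y) * (y : K)⁻¹ = x⁻¹ := by group
      rw [h4] at h3
      exact (Subgroup.inv_mem_iff F).1 h3
    · intro h
      have h2 : ((((⟨x, hx⟩ : S) * y)⁻¹ * y : S) : K) = ((y : K))⁻¹ * x⁻¹ * ((y : K)⁻¹)⁻¹ := by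
        show (x * (y : K))⁻¹ * (y : K) = _
        group
      rw [h2]
      exact hn _ (by rw [inv_smul_eq_iff, hy]) _ (F.inv_mem h)

end free

section glue

variable {K W : Type} [Group K] [MulAction K W]

/-- local systems of free actions -/
theorem exists_act (F : W → Subgroup K)
    (hF2 : ∀ (g : K) (w : W), ∀ x ∈ F w, g * x * g⁻¹ ∈ F (g • w)) (n : ℕ) (hn0 : n ≠ 0)
    (hdvd : ∀ w, (F w).relIndex (MulAction.stabilizer K w) ∣ n) :
    ∃ a : K → W → Equiv.Perm (Fin n), (∀ g h w, a (g * h) w = a g (h • w) * a h w) ∧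
      ∀ g w i, g • w = w → (a g w i = i ↔ g ∈ F w) := by
  classical
  choose l hl1 hl2 using fun w => exists_free (F w) w (fun g hg x hx => by
    have := hF2 g w x hx
    rwa [hg] at this) n hn0 (hdvd w)
  have hs : ∀ w : W, ∃ s : K, s • (Quotient.mk (MulAction.orbitRel K W) w).out = w := by
    intro w
    have h1 : (MulAction.orbitRel K W).r ((Quotient.mk (MulAction.orbitRel K W) w).out) w :=
      Quotient.exact (Quotient.out_eq _)
    exact (MulAction.orbitRel K W).symm h1
  choose s hs using hs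
  have hmk : ∀ (g : K) (w : W), (Quotient.mk (MulAction.orbitRel K W) (g • w)) =
      Quotient.mk (MulAction.orbitRel K W) w := fun g w => Quotient.sound ⟨g, rfl⟩
  have hfix : ∀ (g : K) (w : W), ((s (g • w))⁻¹ * g * s w) •
      (Quotient.mk (MulAction.orbitRel K W) w).out = (Quotient.mk (MulAction.orbitRel K W) w).out := by
    intro g w
    rw [mul_smul, mul_smul, hs, inv_smul_eq_iff]
    have h2 := hs (g • w)
    rw [hmk] at h2
    exact h2.symm
  refine ⟨fun g w => l (Quotient.mk (MulAction.orbitRel K W) w).out ((s (g • w))⁻¹ * g * s w),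
    fun g h w => ?_, fun g w i hg => ?_⟩
  · show l _ ((s ((g * h) • w))⁻¹ * (g * h) * s w) = l _ ((s (g • h • w))⁻¹ * g * s (h • w)) *
      l _ ((s (h • w))⁻¹ * h * s w)
    rw [hmk, ← hl1 _ _ _ ?_ (hfix h w), mul_smul]
    · congr 1
      group
    · have := hfix g (h • w)
      rwa [hmk] at this
  · show l _ ((s (g • w))⁻¹ * g * s w) i = i ↔ _
    rw [hl2 _ _ _ (hfix g w), hg]
    constructor
    · intro h
      have h1 := hF2 (s w) _ _ h
      rw [hs] at h1
      have h2 : s w * ((s w)⁻¹ * g * s w) * (s w)⁻¹ = g := by group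
      rwa [h2] at h1
    · intro h
      have h1 := hF2 (s w)⁻¹ _ _ h
      have h2 : (s w)⁻¹ • w = (Quotient.mk (MulAction.orbitRel K W) w).out := by
        rw [inv_smul_eq_iff, hs]
      rwa [h2, inv_inv] at h1

variable {n : ℕ}

theorem act_one {a : K → W → Equiv.Perm (Fin n)}
    (ha : ∀ g h w, a (g * h) w = a g (h • w) * a h w) (w : W) : a 1 w = 1 := by
  have h1 := ha 1 1 w
  rw [one_smul, mul_one] at h1
  exact left_eq_mul.1 h1

/-- the isomorphism along an edge -/
theorem exists_edge {F : W → Subgroup K} {a : K → W → Equiv.Perm (Fin n)}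
    (ha : ∀ g h w, a (g * h) w = a g (h • w) * a h w)
    (haF : ∀ g w i, g • w = w → (a g w i = i ↔ g ∈ F w)) (u v : W)
    (hF3 : ∀ x : K, x • u = u → x • v = v → (x ∈ F u ↔ x ∈ F v)) :
    ∃ f : Equiv.Perm (Fin n), ∀ g, g • u = u → g • v = v → f * a g u = a g v * f := by
  let E : Subgroup K := MulAction.stabilizer K u ⊓ MulAction.stabilizer K v
  let mk : ∀ w, (∀ g : E, (g : K) • w = w) → MulAction E (Fin n) := fun w hw =>
    { smul := fun g i => a g w i
      one_smul := fun i => by
        show a (1 : K) w i = i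
        rw [act_one ha]
        rfl
      mul_smul := fun g h i => by
        show a ((g : K) * (h : K)) w i = a (g : K) w (a (h : K) w i)
        rw [ha, hw h]
        rfl }
  have hu : ∀ g : E, (g : K) • u = u := fun g => g.2.1
  have hv : ∀ g : E, (g : K) • v = v := fun g => g.2.2
  obtain ⟨f, hf⟩ := @equiv_of_stab E (Fin n) (Fin n) _ (mk u hu) (mk v hv) _ _
    ((F u).subgroupOf E) (by
      intro i
      ext g
      show a (g : K) u i = i ↔ (g : K) ∈ F u
      exact haF g u i (hu g)) (by
      intro i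
      ext g
      show a (g : K) v i = i ↔ (g : K) ∈ F u
      rw [haF g v i (hv g)]
      exact (hF3 g (hu g) (hv g)).symm) rfl
  refine ⟨f, fun g hgu hgv => ?_⟩
  apply Equiv.ext
  intro i
  exact hf ⟨g, hgu, hgv⟩ i

/-- equivariant isomorphisms along the edges -/
theorem exists_edges {T : SimpleGraph W}
    (hact : ∀ (g : K) (u v : W), T.Adj u v → T.Adj (g • u) (g • v))
    {F : W → Subgroup K} {a : K → W → Equiv.Perm (Fin n)}
    (ha : ∀ g h w, a (g * h) w = a g (h • w) * a h w)
    (haF : ∀ g w i, g • w = w → (a g w i = i ↔ g ∈ F w))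
    (hF3 : ∀ u v, T.Adj u v → ∀ x : K, x • u = u → x • v = v → (x ∈ F u ↔ x ∈ F v)) :
    ∃ β : W → W → Equiv.Perm (Fin n), ∀ g u v, T.Adj u v →
      β (g • u) (g • v) * a g u = a g v * β u v := by
  classical
  have hb : ∀ e : W × W, ∃ f : Equiv.Perm (Fin n), T.Adj e.1 e.2 →
      ∀ g, g • e.1 = e.1 → g • e.2 = e.2 → f * a g e.1 = a g e.2 * f := by
    intro e
    by_cases h : T.Adj e.1 e.2
    · obtain ⟨f, hf⟩ := exists_edge ha haF e.1 e.2 (hF3 _ _ h)
      exact ⟨f, fun _ => hf⟩
    · exact ⟨1, fun h' => absurd h' h⟩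
  choose b hb using hb
  have hs : ∀ e : W × W, ∃ s : K, s • (Quotient.mk (MulAction.orbitRel K (W × W)) e).out = e := by
    intro w
    have h1 : (MulAction.orbitRel K (W × W)).r ((Quotient.mk (MulAction.orbitRel K (W × W)) w).out) w :=
      Quotient.exact (Quotient.out_eq _)
    exact (MulAction.orbitRel K (W × W)).symm h1
  choose t ht using hs
  have hmk : ∀ (g : K) (e : W × W), (Quotient.mk (MulAction.orbitRel K (W × W)) (g • e)) =
      Quotient.mk (MulAction.orbitRel K (W × W)) e := fun g w => Quotient.sound ⟨g, rfl⟩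
  obtain ⟨q, hq⟩ : ∃ q : W × W → W × W, q = fun e => (Quotient.mk (MulAction.orbitRel K (W × W)) e).out :=
    ⟨_, rfl⟩
  have hqt : ∀ e, t e • q e = e := by
    intro e
    rw [hq]
    exact ht e
  have hqg : ∀ (g : K) e, q (g • e) = q e := by
    intro g e
    rw [hq]
    show (Quotient.mk _ (g • e)).out = _
    rw [hmk]
  have hqi : ∀ e, q e = (t e)⁻¹ • e := by
    intro e
    rw [eq_inv_smul_iff, hqt]
  refine ⟨fun u v => a (t (u, v)) (q (u, v)).2 * b (q (u, v)) * (a (t (u, v)) (q (u, v)).1)⁻¹,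
    fun g u v huv => ?_⟩
  obtain ⟨e, he⟩ : ∃ e : W × W, e = (u, v) := ⟨_, rfl⟩
  have hge : ((g • u, g • v) : W × W) = g • e := by rw [he]; rfl
  show a (t (g • u, g • v)) (q (g • u, g • v)).2 * b (q (g • u, g • v)) *
    (a (t (g • u, g • v)) (q (g • u, g • v)).1)⁻¹ * a g u = a g v *
      (a (t (u, v)) (q (u, v)).2 * b (q (u, v)) * (a (t (u, v)) (q (u, v)).1)⁻¹)
  rw [hge, ← he, hqg]
  obtain ⟨k, hk⟩ : ∃ k : K, k = (t e)⁻¹ * g⁻¹ * t (g • e) := ⟨_, rfl⟩
  have hkq : k • q e = q e := by
    have h1 := hqt (g • e)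
    rw [hqg] at h1
    rw [hk, mul_smul, mul_smul, h1, inv_smul_smul, hqi]
  have hk1 : k • (q e).1 = (q e).1 := congrArg Prod.fst hkq
  have hk2 : k • (q e).2 = (q e).2 := congrArg Prod.snd hkq
  have htg : t (g • e) = g * (t e * k) := by
    rw [hk]
    group
  have ht1 : t e • (q e).1 = u := by
    have := congrArg Prod.fst (hqt e)
    rw [he] at this ⊢
    exact this
  have ht2 : t e • (q e).2 = v := by
    have := congrArg Prod.snd (hqt e)
    rw [he] at this ⊢
    exact this
  have hadj : T.Adj (q e).1 (q e).2 := by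
    have h1 := hact (t e)⁻¹ _ _ huv
    have h2 : (t e)⁻¹ • u = (q e).1 := by rw [inv_smul_eq_iff, ht1]
    have h3 : (t e)⁻¹ • v = (q e).2 := by rw [inv_smul_eq_iff, ht2]
    rwa [h2, h3] at h1
  have hbk := hb (q e) hadj k hk1 hk2
  rw [htg, ha g (t e * k), ha g (t e * k), ha (t e) k, ha (t e) k, mul_smul, mul_smul, hk1, hk2,
    ht1, ht2]
  calc a g v * (a (t e) (q e).2 * a k (q e).2) * b (q e) *
        (a g u * (a (t e) (q e).1 * a k (q e).1))⁻¹ * a g u
      = a g v * a (t e) (q e).2 * (a k (q e).2 * b (q e)) * (a k (q e).1)⁻¹ *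
          (a (t e) (q e).1)⁻¹ := by group
    _ = a g v * (a (t e) (q e).2 * b (q e) * (a (t e) (q e).1)⁻¹) := by
      rw [← hbk]
      group

theorem wp_twist {T : SimpleGraph W} {M : Type} [Group M]
    (hact : ∀ (g : K) (u v : W), T.Adj u v → T.Adj (g • u) (g • v))
    (e : W → W → M) (a : K → W → M)
    (he : ∀ g u v, T.Adj u v → e (g • u) (g • v) * a g v = a g u * e u v) (g : K)
    {u v : W} (p : T.Walk u v) :
    Pool.Agent.N24.TR.wp e (p.map (Pool.Agent.N24.TR.shift hact g)) * a g v =
      a g u * Pool.Agent.N24.TR.wp e p := by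
  induction p with
  | nil =>
    rw [Walk.map_nil, Pool.Agent.N24.TR.wp_nil, Pool.Agent.N24.TR.wp_nil, one_mul, mul_one]
  | @cons u w v h p ih =>
    rw [Walk.map_cons, Pool.Agent.N24.TR.wp_cons, Pool.Agent.N24.TR.wp_cons, mul_assoc, ih,
      ← mul_assoc, ← mul_assoc]
    congr 1
    exact he g u w h

theorem gam_twist {T : SimpleGraph W} {M : Type} [Group M] (hT : T.IsTree)
    (hact : ∀ (g : K) (u v : W), T.Adj u v → T.Adj (g • u) (g • v))
    (e : W → W → M) (a : K → W → M) (he' : ∀ u v, T.Adj u v → e u v * e v u = 1)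
    (he : ∀ g u v, T.Adj u v → e (g • u) (g • v) * a g v = a g u * e u v) (g : K) (u v : W) :
    gam hT e (g • u) (g • v) * a g v = a g u * gam hT e u v := by
  obtain ⟨p⟩ := hT.connected.preconnected u v
  rw [Pool.Agent.N24.TR.gam_eq hT e he' p, ← wp_twist hact e a he g]
  congr 1
  exact Pool.Agent.N24.TR.gam_eq hT e he' (p.map (Pool.Agent.N24.TR.shift hact g))

/-- **Gluing.** The group `K` acts on a tree and preserves a colouring of the vertices with two
colours. Let `F w` be an equivariant family of subgroups of the stabilizers of the vertices, whose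
indices divide `n`, and which agree on the stabilizers of the edges. Then there is a homomorphism from
`K` to a finite group whose kernel meets the stabilizer of `w` in a subgroup of `F w`. -/
theorem glue {T : SimpleGraph W} (hT : T.IsTree)
    (hact : ∀ (g : K) (u v : W), T.Adj u v → T.Adj (g • u) (g • v)) (col : W → Bool)
    (hcol : ∀ (g : K) w, col (g • w) = col w) (hcol' : ∀ u v, T.Adj u v → col u ≠ col v)
    (F : W → Subgroup K) (hF2 : ∀ (g : K) (w : W), ∀ x ∈ F w, g * x * g⁻¹ ∈ F (g • w))
    (hF3 : ∀ u v, T.Adj u v → ∀ x : K, x • u = u → x • v = v → (x ∈ F u ↔ x ∈ F v))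
    (n : ℕ) (hn0 : n ≠ 0) (hdvd : ∀ w, (F w).relIndex (MulAction.stabilizer K w) ∣ n) :
    ∃ ρ : K →* Equiv.Perm (Fin n), ∀ g w, g • w = w → ρ g = 1 → g ∈ F w := by
  classical
  obtain ⟨a, ha, haF⟩ := exists_act F hF2 n hn0 hdvd
  obtain ⟨β, hβ⟩ := exists_edges hact ha haF hF3
  obtain ⟨e, hedef⟩ : ∃ e : W → W → Equiv.Perm (Fin n), e = fun u v =>
    if col u = true then β v u else (β u v)⁻¹ := ⟨_, rfl⟩
  have he' : ∀ u v, T.Adj u v → e u v * e v u = 1 := by
    intro u v huv
    have h1 := hcol' u v huv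
    rw [hedef]
    cases hu : col u <;> cases hv : col v
    · rw [hu, hv] at h1
      exact absurd rfl h1
    · simp [hu, hv]
    · simp [hu, hv]
    · rw [hu, hv] at h1
      exact absurd rfl h1
  have he : ∀ g u v, T.Adj u v → e (g • u) (g • v) * a g v = a g u * e u v := by
    intro g u v huv
    rw [hedef]
    by_cases hu : col u = true
    · have h1 : col (g • u) = true := by rw [hcol, hu]
      simp only [if_pos hu, if_pos h1]
      exact hβ g v u huv.symm
    · have h1 : ¬ col (g • u) = true := by rwa [hcol]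
      simp only [if_neg hu, if_neg h1]
      have h2 := hβ g u v huv
      rw [inv_mul_eq_iff_eq_mul, ← mul_assoc, h2, mul_assoc, mul_inv_cancel, mul_one]
  obtain ⟨o⟩ := hT.connected.nonempty
  have hgt := gam_twist hT hact e a he' he
  have hgm := gam_mul hT e he'
  refine ⟨MonoidHom.mk' (fun g => gam hT e o (g • o) * a g o) ?_, fun g w hg h => ?_⟩
  · intro g h
    rw [ha, mul_smul, ← hgm o (g • o) (g • h • o)]
    calc gam hT e o (g • o) * gam hT e (g • o) (g • h • o) * (a g (h • o) * a h o)
        = gam hT e o (g • o) * (gam hT e (g • o) (g • h • o) * a g (h • o)) * a h o := by group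
      _ = _ := by
        rw [hgt]
        group
  · have h0 : gam hT e o (g • o) * a g o = 1 := h
    have h1 := hgt g o w
    rw [hg] at h1
    have h2 : a g w = 1 := by
      have h3 : gam hT e w (g • o) * gam hT e (g • o) w = 1 := by
        rw [hgm, Pool.Agent.N24.TR.gam_self hT e he']
      have h4 : gam hT e w o * gam hT e o w = 1 := by
        rw [hgm, Pool.Agent.N24.TR.gam_self hT e he']
      calc a g w = gam hT e w (g • o) * (gam hT e (g • o) w * a g w) := by
            rw [← mul_assoc, h3, one_mul]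
        _ = gam hT e w o * (gam hT e o (g • o) * a g o) * gam hT e o w := by
            rw [h1, ← hgm w o (g • o)]
            group
        _ = 1 := by rw [h0, mul_one, h4]
    have h3 : (a g w) ⟨0, Nat.pos_of_ne_zero hn0⟩ = ⟨0, Nat.pos_of_ne_zero hn0⟩ := by
      rw [h2]
      rfl
    exact (haF g w _ hg).1 h3

end glue

end Pool.Agent.Run7.h650.GM
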