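import Pool.Agent.N509.TX.Sub
import Pool.Agent.N509.TK.Fin
import Pool.Agent.Run7.h650.GM.Core
import Pool.Agent.Run7.h650.GM.Glue

/-!
# Extensions by groups acting on trees, the case of normal subgroups

Owner helper650.
-/

set_option autoImplicit false

namespace Pool.Agent.Run7.h650.GM

open SimpleGraph
open scoped commutatorElement
open Pool.Agent.Y110.FJ
open Pool.Agent.R941.FJ (C_equiv C_le)
open Pool.Agent.N509.TK (hcrit Sb mem_Sb EH)
open Pool.Agent.N509.TX (STree fg_subtree of_fg)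
open Pool.Agent.N24.TR (gam gam_mul gam_adj gam_self gam_map)

variable {C : ∀ (G : Type) [Group G], Prop}

section

variable {G V : Type} [Group G] [MulAction G V] {T : SimpleGraph V}

/-- the stabilizer of `v` in `N` -/
def Nv (N : Subgroup G) (v : V) : Subgroup G := N ⊓ MulAction.stabilizer G v

theorem mem_Nv {N : Subgroup G} {v : V} {x : G} : x ∈ Nv N v ↔ x ∈ N ∧ x • v = v := Iff.rfl

theorem Nv_conj (N : Subgroup G) [hN : N.Normal] (g : G) (v : V) :
    Nv N (g • v) = (Nv N v).map (MulAut.conj g).toMonoidHom := by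
  ext x
  rw [mem_map_conj, mem_Nv, mem_Nv, mul_smul, mul_smul, inv_smul_eq_iff]
  constructor
  · rintro ⟨h1, h2⟩
    have h3 := hN.conj_mem x h1 g⁻¹
    rw [inv_inv] at h3
    exact ⟨h3, h2⟩
  · rintro ⟨h1, h2⟩
    have h3 := hN.conj_mem _ h1 g
    have h4 : g * (g⁻¹ * x * g) * g⁻¹ = x := by group
    rw [h4] at h3
    exact ⟨h3, h2⟩

/-- the condition on the edges -/
def DE (N : Subgroup G) (p : ℕ) (v w : V) : Prop :=
  Dt p ((Nv N v ⊓ Nv N w).subgroupOf (Nv N v))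

/-- consequences of the condition on an edge -/
theorem DE_cons {N : Subgroup G} {p : ℕ} {v w : V} (h : DE N p v w) :
    ∃ B0 : ℕ, ∀ B, B0 ≤ B → ∀ x : G, x ∈ Fc p B (Nv N v) → x ∈ Nv N v → x • w = w →
      (∃ y ∈ Nv N v ⊓ Nv N w, y ^ p = x) ∧
      (x ∈ ⁅Fc p B (Nv N v), Fc p B (Nv N v)⁆ → x = 1) := by
  obtain ⟨Q, _, _, f, h1, h2, h3⟩ := h
  refine ⟨Nat.card Q, fun B hB x hx hxN hxw => ⟨?_, fun hxc => ?_⟩⟩
  · have h4 := Fc_hom hB h1 f hx hxN
    obtain ⟨y, hy, hyx⟩ := h2 ⟨x, hxN⟩ ⟨hxN, hxN.1, hxw⟩ h4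
    exact ⟨y, hy, congrArg Subtype.val hyx⟩
  · have hB1 : 1 ≤ B := le_trans (Nat.one_le_iff_ne_zero.2 Nat.card_pos.ne') hB
    have h4 : Fc p B (Nv N v) ≤ f.ker.map (Nv N v).subtype := by
      intro y hy
      have hyN := Fc_le p hB1 (Nv N v) hy
      exact ⟨⟨y, hyN⟩, Fc_hom hB h1 f hy hyN, rfl⟩
    have h5 := Subgroup.commutator_mono h4 h4 hxc
    rw [← Subgroup.map_commutator] at h5
    obtain ⟨z, hz, hzx⟩ := h5
    have h6 : z = ⟨x, hxN⟩ := Subtype.ext hzx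
    rw [h6] at hz
    exact congrArg Subtype.val (h3 ⟨x, hxN⟩ ⟨hxN, hxN.1, hxw⟩ hz)

/-- finitely generated groups which preserve a colouring -/
theorem main1 (hC : ClosedE C) (hM : ∀ (G : Type) [Group G], derivedSeries G 2 = ⊥ → C G)
    (hT : T.IsTree) (hact : ∀ (g : G) (u v : V), T.Adj u v → T.Adj (g • u) (g • v))
    (N : Subgroup G) [hN : N.Normal] (hQ : C (G ⧸ N)) (hfg : ∀ v : V, (Nv N v).FG)
    (hE : ∀ v w, T.Adj v w → ∃ p0 : ℕ, ∀ p : ℕ, p.Prime → p0 ≤ p → DE N p v w)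
    (hV : ∀ (v : V) (g : G), g • v = v → C ↥(Nv N v ⊔ Subgroup.zpowers g))
    (col : V → Bool) (hcol : ∀ u v, T.Adj u v → col u ≠ col v) (H : Subgroup G) (hH : Group.FG H)
    (hHcol : ∀ h ∈ H, ∀ v, col (h • v) = col v) : C H := by
  classical
  obtain ⟨o⟩ := hT.connected.nonempty
  have hactH : ∀ (g : H) (u v : V), T.Adj u v → T.Adj (g • u) (g • v) := fun g u v h => hact g u v h
  obtain ⟨W, _, T', ι, Φ, hι, ⟨wo, hwo⟩, hΦ, hΦT⟩ := fg_subtree (G := H) hT hactH hH o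
  have hιs : ∀ (g : H) (w : W), ι (g • w) = (g : G) • ι w := fun g w => hι.eqv g w
  -- the prime
  have hp : ∃ p0 : ℕ, ∀ p : ℕ, p.Prime → p0 ≤ p → ∀ e ∈ Φ, DE N p e.1 e.2 ∧ DE N p e.2 e.1 := by
    have : ∀ e : V × V, ∃ p0 : ℕ, e ∈ Φ → ∀ p : ℕ, p.Prime → p0 ≤ p →
        DE N p e.1 e.2 ∧ DE N p e.2 e.1 := by
      intro e
      by_cases he : e ∈ Φ
      · obtain ⟨p1, hp1⟩ := hE _ _ (hΦ e he)
        obtain ⟨p2, hp2⟩ := hE _ _ (hΦ e he).symm
        exact ⟨max p1 p2, fun _ p hp hpp => ⟨hp1 p hp ((le_max_left _ _).trans hpp),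
          hp2 p hp ((le_max_right _ _).trans hpp)⟩⟩
      · exact ⟨0, fun h => absurd h he⟩
    choose q hq using this
    exact ⟨Φ.sup q, fun p hp hpp e he => hq e he p hp ((Finset.le_sup he).trans hpp)⟩
  obtain ⟨p0, hp0⟩ := hp
  obtain ⟨p, hpp, hp⟩ := Nat.exists_infinite_primes p0
  have hΦp := hp0 p hp hpp
  -- the bound on the index
  have hB : ∃ B0 : ℕ, ∀ B, B0 ≤ B → ∀ e ∈ Φ, ∀ x : G,
      (x ∈ Fc p B (Nv N e.1) → x ∈ Nv N e.1 → x • e.2 = e.2 →
        (∃ y ∈ Nv N e.1 ⊓ Nv N e.2, y ^ p = x) ∧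
        (x ∈ ⁅Fc p B (Nv N e.1), Fc p B (Nv N e.1)⁆ → x = 1)) ∧
      (x ∈ Fc p B (Nv N e.2) → x ∈ Nv N e.2 → x • e.1 = e.1 →
        (∃ y ∈ Nv N e.2 ⊓ Nv N e.1, y ^ p = x) ∧
        (x ∈ ⁅Fc p B (Nv N e.2), Fc p B (Nv N e.2)⁆ → x = 1)) := by
    have : ∀ e : V × V, ∃ B0 : ℕ, e ∈ Φ → ∀ B, B0 ≤ B → ∀ x : G,
      (x ∈ Fc p B (Nv N e.1) → x ∈ Nv N e.1 → x • e.2 = e.2 →
        (∃ y ∈ Nv N e.1 ⊓ Nv N e.2, y ^ p = x) ∧
        (x ∈ ⁅Fc p B (Nv N e.1), Fc p B (Nv N e.1)⁆ → x = 1)) ∧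
      (x ∈ Fc p B (Nv N e.2) → x ∈ Nv N e.2 → x • e.1 = e.1 →
        (∃ y ∈ Nv N e.2 ⊓ Nv N e.1, y ^ p = x) ∧
        (x ∈ ⁅Fc p B (Nv N e.2), Fc p B (Nv N e.2)⁆ → x = 1)) := by
      intro e
      by_cases he : e ∈ Φ
      · obtain ⟨B1, hB1⟩ := DE_cons (hΦp e he).1
        obtain ⟨B2, hB2⟩ := DE_cons (hΦp e he).2
        exact ⟨max B1 B2, fun _ B hB x => ⟨hB1 B ((le_max_left _ _).trans hB) x,
          hB2 B ((le_max_right _ _).trans hB) x⟩⟩
      · exact ⟨0, fun h => absurd h he⟩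
    choose q hq using this
    exact ⟨Φ.sup q, fun B hB e he => hq e he B ((Finset.le_sup he).trans hB)⟩
  obtain ⟨B0, hB0⟩ := hB
  obtain ⟨B, hBdef⟩ : ∃ B : ℕ, B = max B0 1 := ⟨_, rfl⟩
  have hB1 : 1 ≤ B := by
    rw [hBdef]
    exact le_max_right _ _
  have hΦB := hB0 B (by rw [hBdef]; exact le_max_left _ _)
  obtain ⟨F, hF⟩ : ∃ F : V → Subgroup G, F = fun v => Fc p B (Nv N v) := ⟨_, rfl⟩
  have hFle : ∀ v, F v ≤ Nv N v := by
    intro v
    rw [hF]
    exact Fc_le p hB1 _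
  have hFconj : ∀ (g : G) (v : V) (x : G), x ∈ F v → g * x * g⁻¹ ∈ F (g • v) := by
    intro g v x hx
    rw [hF] at hx ⊢
    exact Fc_conj g (Nv_conj N g v) hx
  have hFpow : ∀ v x, x ∈ Nv N v → x ^ p ∈ F v := by
    intro v x hx
    rw [hF]
    exact Fc_pow hx
  -- the properties of the edges
  have key : ∀ u v, T'.Adj u v → ∀ x : G, x ∈ F (ι u) → x • ι v = ι v →
      (∃ y ∈ Nv N (ι u) ⊓ Nv N (ι v), y ^ p = x) ∧ (x ∈ ⁅F (ι u), F (ι u)⁆ → x = 1) := by
    intro u v huv x hx hxv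
    obtain ⟨h, hh⟩ := hΦT u v huv
    have hxu : x • ι u = ι u := (hFle _ hx).2
    have hx' : (h : G) * x * (h : G)⁻¹ ∈ F ((h : G) • ι u) := hFconj h _ x hx
    have hxv' : ((h : G) * x * (h : G)⁻¹) • (h : G) • ι v = (h : G) • ι v := by
      rw [mul_smul, mul_smul, inv_smul_smul, hxv]
    have hres : (∃ y ∈ Nv N ((h : G) • ι u) ⊓ Nv N ((h : G) • ι v), y ^ p = (h : G) * x * (h : G)⁻¹) ∧
        ((h : G) * x * (h : G)⁻¹ ∈ ⁅F ((h : G) • ι u), F ((h : G) • ι u)⁆ →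
          (h : G) * x * (h : G)⁻¹ = 1) := by
      rcases hh with hh | hh
      · have h1 := (hΦB _ hh ((h : G) * x * (h : G)⁻¹)).1
        rw [hF] at hx' ⊢
        exact h1 hx' (Fc_le p hB1 _ hx') hxv'
      · have h1 := (hΦB _ hh ((h : G) * x * (h : G)⁻¹)).2
        rw [hF] at hx' ⊢
        exact h1 hx' (Fc_le p hB1 _ hx') hxv'
    obtain ⟨⟨y, ⟨hy1, hy2⟩, hyx⟩, hc⟩ := hres
    constructor
    · refine ⟨(h : G)⁻¹ * y * (h : G), ⟨?_, ?_⟩, ?_⟩
      · have h1 : y ∈ Nv N ((h : G) • ι u) := hy1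
        rw [Nv_conj, mem_map_conj] at h1
        exact h1
      · have h1 : y ∈ Nv N ((h : G) • ι v) := hy2
        rw [Nv_conj, mem_map_conj] at h1
        exact h1
      · have h1 : ((h : G)⁻¹ * y * (h : G)) ^ p = (h : G)⁻¹ * y ^ p * (h : G) := by
          have := conj_pow (a := (h : G)⁻¹) (b := y) (i := p)
          rwa [inv_inv] at this
        rw [h1, hyx]
        group
    · intro hxc
      have h1 : (h : G) * x * (h : G)⁻¹ ∈ ⁅F ((h : G) • ι u), F ((h : G) • ι u)⁆ := by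
        have h2 : (h : G) * x * (h : G)⁻¹ ∈ (⁅F (ι u), F (ι u)⁆).map (MulAut.conj (h : G)).toMonoidHom :=
          ⟨x, hxc, rfl⟩
        rw [Subgroup.map_commutator] at h2
        refine Subgroup.commutator_mono ?_ ?_ h2
        · rintro _ ⟨z, hz, rfl⟩
          exact hFconj _ _ z hz
        · rintro _ ⟨z, hz, rfl⟩
          exact hFconj _ _ z hz
      have h2 := hc h1
      have h3 : x = (h : G)⁻¹ * ((h : G) * x * (h : G)⁻¹) * (h : G) := by group
      rw [h3, h2]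
      group
  -- representatives of the vertices
  obtain ⟨Ψ, hΨ⟩ : ∃ Ψ : Finset V, Ψ = insert o (Φ.image Prod.fst ∪ Φ.image Prod.snd) := ⟨_, rfl⟩
  have hrep : ∀ w : W, ∃ h : H, (h : G) • ι w ∈ Ψ := by
    intro w
    by_cases hw : w = wo
    · refine ⟨1, ?_⟩
      rw [hw, hwo, hΨ]
      show (1 : G) • o ∈ _
      rw [one_smul]
      exact Finset.mem_insert_self _ _
    · obtain ⟨q⟩ := hι.tree.connected.preconnected w wo
      cases q with
      | nil => exact absurd rfl hw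
      | @cons _ z _ hadj _ =>
        obtain ⟨h, hh⟩ := hΦT w z hadj
        refine ⟨h, ?_⟩
        rw [hΨ]
        refine Finset.mem_insert_of_mem ?_
        rw [Finset.mem_union, Finset.mem_image, Finset.mem_image]
        rcases hh with hh | hh
        · exact Or.inl ⟨_, hh, rfl⟩
        · exact Or.inr ⟨_, hh, rfl⟩
  obtain ⟨b, hb⟩ : ∃ b : ℕ, ∀ v ∈ Ψ, (F v).relIndex (Nv N v) ≤ b :=
    ⟨Ψ.sup fun v => (F v).relIndex (Nv N v), fun v hv =>
      Finset.le_sup (f := fun v => (F v).relIndex (Nv N v)) hv⟩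
  have hb' : ∀ w : W, (F (ι w)).relIndex (Nv N (ι w)) ≠ 0 ∧ (F (ι w)).relIndex (Nv N (ι w)) ≤ b := by
    intro w
    constructor
    · rw [hF]
      exact Fc_relIndex p B _ (hfg _)
    · obtain ⟨h, hh⟩ := hrep w
      have h1 := hb _ hh
      have h2 : F ((h : G) • ι w) = (F (ι w)).map (MulAut.conj (h : G)).toMonoidHom := by
        ext x
        rw [mem_map_conj]
        constructor
        · intro hx
          have h3 := hFconj (h : G)⁻¹ _ x hx
          rwa [inv_smul_smul, inv_inv] at h3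
        · intro hx
          have h3 := hFconj (h : G) _ _ hx
          have h4 : (h : G) * ((h : G)⁻¹ * x * (h : G)) * (h : G)⁻¹ = x := by group
          rwa [h4] at h3
      rw [h2, Nv_conj, relIndex_conj] at h1
      exact h1
  -- the gluing
  obtain ⟨K, hK⟩ : ∃ K : Subgroup H, K = N.subgroupOf H := ⟨_, rfl⟩
  have hKn : K.Normal := by
    rw [hK]
    infer_instance
  have hKN' : ∀ x : H, x ∈ K → (x : G) ∈ N := by
    intro x hx
    rw [hK] at hx
    exact hx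
  have hKN : ∀ k : K, ((k : H) : G) ∈ N := fun k => hKN' k k.2
  obtain ⟨FW, hFW⟩ : ∃ FW : W → Subgroup K, FW = fun w => (F (ι w)).comap (H.subtype.comp K.subtype) :=
    ⟨_, rfl⟩
  have hmemFW : ∀ w (k : K), k ∈ FW w ↔ ((k : H) : G) ∈ F (ι w) := by
    intro w k
    rw [hFW]
    exact Iff.rfl
  have hfixK : ∀ (k : K) (w : W), k • w = w ↔ ((k : H) : G) • ι w = ι w := by
    intro k w
    rw [← hιs]
    exact ⟨fun h => congrArg ι h, fun h => hι.inj h⟩
  obtain ⟨ρ, hρ⟩ := glue (K := K) (W := W) (T := T') hι.tree (fun k u v h => hι.act k u v h)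
    (fun w => col (ι w)) (fun k w => by
      show col (ι ((k : H) • w)) = _
      rw [hιs]
      exact hHcol _ (k : H).2 _) (fun u v h => hcol _ _ (hι.adj u v h)) FW (by
      intro g w x hx
      rw [hmemFW] at hx ⊢
      have h1 : ι (g • w) = ((g : H) : G) • ι w := hιs _ _
      rw [h1]
      exact hFconj _ _ _ hx) (by
      intro u v huv x hxu hxv
      rw [hfixK] at hxu hxv
      rw [hmemFW, hmemFW]
      constructor
      · intro hx
        obtain ⟨⟨y, hy, hyx⟩, -⟩ := key u v huv _ hx hxv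
        rw [← hyx]
        exact hFpow _ _ hy.2
      · intro hx
        obtain ⟨⟨y, hy, hyx⟩, -⟩ := key v u huv.symm _ hx hxu
        rw [← hyx]
        exact hFpow _ _ hy.2) b.factorial (Nat.factorial_ne_zero b) (by
      intro w
      have h1 : (FW w).relIndex (MulAction.stabilizer K w) =
          (F (ι w)).relIndex ((MulAction.stabilizer K w).map (H.subtype.comp K.subtype)) := by
        rw [hFW]
        exact Subgroup.relIndex_comap _ _ _
      have h2 : (MulAction.stabilizer K w).map (H.subtype.comp K.subtype) ≤ Nv N (ι w) := by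
        rintro _ ⟨k, hk, rfl⟩
        exact ⟨hKN k, (hfixK k w).1 hk⟩
      obtain ⟨h3, h4⟩ := hb' w
      rw [h1]
      refine Nat.dvd_factorial (Nat.pos_of_ne_zero fun h => ?_)
        ((Subgroup.relIndex_le_of_le_right h2 h3).trans h4)
      exact h3 (Subgroup.relIndex_eq_zero_of_le_right h2 h))
  -- the normal subgroup
  obtain ⟨L1, hL1⟩ : ∃ L1 : Subgroup H, L1 = ρ.ker.map K.subtype := ⟨_, rfl⟩
  have hL1K : L1 ≤ K := by
    rw [hL1]
    rintro _ ⟨k, _, rfl⟩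
    exact k.2
  have hL1i : L1.relIndex K ≠ 0 := by
    have h1 : L1.subgroupOf K = ρ.ker := by
      rw [hL1, Subgroup.subgroupOf, Subgroup.comap_map_eq_self_of_injective K.subtype_injective]
    show (L1.subgroupOf K).index ≠ 0
    rw [h1, Subgroup.index_ker]
    exact Nat.card_pos.ne'
  have hCK : C (H ⧸ K) := by
    have h1 : (QuotientGroup.mk' N).comp H.subtype = (QuotientGroup.mk' N).comp H.subtype := rfl
    refine hC.base.of_injective _ _ (QuotientGroup.lift K ((QuotientGroup.mk' N).comp H.subtype) ?_)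
      ?_ hQ
    · intro x hx
      rw [hK] at hx
      exact (QuotientGroup.eq_one_iff _).2 hx
    · rw [injective_iff_map_eq_one]
      intro x hx
      obtain ⟨x, rfl⟩ := QuotientGroup.mk_surjective x
      have h2 : ((x : G) : G ⧸ N) = 1 := hx
      rw [QuotientGroup.eq_one_iff] at h2 ⊢
      rw [hK]
      exact h2
  obtain ⟨L, hL⟩ : ∃ L : Subgroup H, L = L1.normalCore := ⟨_, rfl⟩
  have hLn : L.Normal := by
    rw [hL]
    infer_instance
  have hCL : C (H ⧸ L) := by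
    subst hL
    exact core_C hC hL1K hL1i hCK
  have hLL1 : L ≤ L1 := by
    rw [hL]
    exact L1.normalCore_le
  have hLF : ∀ w : W, (Sb L w).map H.subtype ≤ F (ι w) := by
    rintro w _ ⟨x, hx, rfl⟩
    have h1 := hLL1 hx.2
    rw [hL1] at h1
    obtain ⟨k, hk, hkx⟩ := h1
    have h2 : k • w = w := by
      show (k : H) • w = w
      have h3 : (k : H) = x := hkx
      rw [h3]
      exact hx.1
    have h3 := hρ k w h2 hk
    rw [hmemFW] at h3
    have h4 : ((k : H) : G) = H.subtype x := congrArg H.subtype hkx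
    rwa [h4] at h3
  refine hcrit (G := H) (V := W) (T := T') hC hM hι.tree hι.act L hCL ?_ ?_
  · intro u v huv x hxu hxv hxc
    have h1 : (x : G) ∈ F (ι u) := hLF u ⟨x, hxu, rfl⟩
    have h2 : (x : G) • ι v = ι v := by
      have h3 := congrArg ι hxv.1
      rw [hιs] at h3
      exact h3
    have h3 : (x : G) ∈ ⁅F (ι u), F (ι u)⁆ := by
      have h4 : (x : G) ∈ (⁅Sb L u, Sb L u⁆).map H.subtype := ⟨x, hxc, rfl⟩
      rw [Subgroup.map_commutator] at h4
      exact Subgroup.commutator_mono (hLF u) (hLF u) h4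
    exact Subtype.ext ((key u v huv _ h1 h2).2 h3)
  · intro w g hg
    obtain ⟨S, hS⟩ : ∃ S : Subgroup H, S = Sb L w ⊔ Subgroup.zpowers g := ⟨_, rfl⟩
    rw [← hS]
    refine C_equiv hC.base (S.equivMapOfInjective H.subtype H.subtype_injective)
      (C_le hC.base ?_ (hV (ι w) (g : G) ?_))
    · rw [hS, Subgroup.map_sup]
      refine sup_le ((hLF w).trans ((hFle _).trans le_sup_left)) ?_
      rw [MonoidHom.map_zpowers]
      exact le_sup_right
    · rw [← hιs, hg]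

end

end Pool.Agent.Run7.h650.GM
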