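import Pool.Agent.Run7.h650.GM.Vert
import Pool.Agent.Run7.h650.GM.Det
import Pool.Agent.Run7.h650.GM.Core

/-!
# Extensions whose kernels are subgroups of finite direct products of free groups

Owner helper650.
-/

set_option autoImplicit false

namespace Pool.Agent.Run7.h650.GM

open scoped commutatorElement
open Pool.Agent.Y110.FJ
open Pool.Agent.R941.FJ (C_equiv C_le C_cyc mem_sup_normal)
open Pool.Agent.R684.FP (FbC free_ext)

variable {C : ∀ (G : Type) [Group G], Prop}

/-- an element of a free group which is conjugate to its inverse is trivial -/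
theorem free_inv {X : Type} {c r : FreeGroup X} (h : c * r * c⁻¹ = r⁻¹) : r = 1 := by
  have h1 : (c * c) * r * (c * c)⁻¹ = r := by
    calc (c * c) * r * (c * c)⁻¹ = c * (c * r * c⁻¹) * c⁻¹ := by group
      _ = c * r⁻¹ * c⁻¹ := by rw [h]
      _ = (c * r * c⁻¹)⁻¹ := by group
      _ = r := by rw [h, inv_inv]
  have h2 : (r * c * r⁻¹) ^ (2 : ℤ) = c ^ (2 : ℤ) := by
    rw [conj_zpow]
    have h3 : r * (c * c) = (c * c) * r := by
      conv_lhs => rw [← h1]
      group
    rw [zpow_two, h3]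
    group
  have h3 : r * c * r⁻¹ = c := zpow_left_injective (by norm_num) h2
  have h4 : c * r * c⁻¹ = r := by
    have h5 : c * r = r * c := by
      conv_lhs => rw [← h3]
      group
    rw [h5]
    group
  rw [h4] at h
  have h5 : r ^ (2 : ℤ) = 1 ^ (2 : ℤ) := by
    rw [one_zpow, zpow_two]
    nth_rewrite 2 [h]
    rw [mul_inv_cancel]
  exact zpow_left_injective (by norm_num) h5

/-- commuting nontrivial normal subgroups of a subgroup of a free group -/
theorem free_normal {X : Type} (Φ P Q : Subgroup (FreeGroup X))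
    (hPn : ∀ c ∈ Φ, ∀ x ∈ P, c * x * c⁻¹ ∈ P)
    (hPQ : ∀ x ∈ P, ∀ y ∈ Q, x * y = y * x) (hP1 : ∃ x ∈ P, x ≠ 1) (hQ1 : ∃ x ∈ Q, x ≠ 1) :
    ∀ x ∈ Φ, ∀ y ∈ Φ, x * y = y * x := by
  obtain ⟨a, ha, ha1⟩ := hP1
  obtain ⟨b, hb, hb1⟩ := hQ1
  -- `P` is abelian
  have hPab : ∀ x ∈ P, ∀ y ∈ P, x * y = y * x := fun x hx y hy =>
    free_trans hb1 (hPQ x hx b hb) (hPQ y hy b hb)
  obtain ⟨r, hr, hcyc⟩ := free_ab P hPab
  have hr1 : r ≠ 1 := by
    rintro rfl
    obtain ⟨i, hi⟩ := hcyc a ha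
    rw [one_zpow] at hi
    exact ha1 hi
  have hcr : ∀ c ∈ Φ, c * r = r * c := by
    intro c hc
    obtain ⟨n, hn⟩ := hcyc _ (hPn c hc r hr)
    obtain ⟨m, hm⟩ := hcyc _ (hPn c⁻¹ (Φ.inv_mem hc) r hr)
    have h1 : r ^ (n * m) = r ^ (1 : ℤ) := by
      rw [mul_comm n m, zpow_mul, ← hm, conj_zpow, ← hn]
      group
    have h2 : n * m = 1 := by
      by_contra hne
      have h3 : r ^ (n * m - 1) = 1 ^ (n * m - 1) := by
        rw [zpow_sub, h1, one_zpow, mul_inv_cancel]
      exact hr1 (zpow_left_injective (sub_ne_zero.2 hne) h3)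
    rcases Int.isUnit_iff.1 (IsUnit.of_mul_eq_one m h2) with rfl | rfl
    · rw [zpow_one] at hn
      rw [← mul_inv_eq_iff_eq_mul]
      exact hn
    · rw [zpow_neg, zpow_one] at hn
      exact absurd (free_inv hn) hr1
  intro x hx y hy
  exact free_trans hr1 (hcr x hx) (hcr y hy)

/-- a homomorphism from a subgroup of a product of free groups to a free group with a nonabelian image
factors through one of the projections -/
theorem factor {A : Type} [Group A] (r : ℕ) : ∀ (X : Fin r → Type) (p : ∀ i, A →* FreeGroup (X i))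
    (Y : Type) (φ : A →* FreeGroup Y), (∀ x, (∀ i, p i x = 1) → φ x = 1) →
    (∃ a b, φ a * φ b ≠ φ b * φ a) → ∃ i, (p i).ker ≤ φ.ker := by
  induction r with
  | zero =>
    rintro X p Y φ h ⟨a, b, hab⟩
    refine absurd ?_ hab
    rw [h a fun i => i.elim0, h b fun i => i.elim0]
  | succ r ih =>
    rintro X p Y φ h ⟨a, b, hab⟩
    obtain ⟨L, hL⟩ : ∃ L : Subgroup A, L = ⨅ i : Fin r, (p i.succ).ker := ⟨_, rfl⟩
    have hmem : ∀ x, x ∈ L ↔ ∀ i : Fin r, p i.succ x = 1 := by
      intro x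
      rw [hL, Subgroup.mem_iInf]
      rfl
    by_cases h1 : ∀ x ∈ (p 0).ker, φ x = 1
    · exact ⟨0, h1⟩
    by_cases h2 : ∀ x ∈ L, φ x = 1
    · obtain ⟨i, hi⟩ := ih (fun i => X i.succ) (fun i => p i.succ) Y φ
        (fun x hx => h2 x ((hmem x).2 hx)) ⟨a, b, hab⟩
      exact ⟨i.succ, hi⟩
    push Not at h1 h2
    exfalso
    apply hab
    obtain ⟨x, hx, hx1⟩ := h1
    obtain ⟨y, hy, hy1⟩ := h2
    refine free_normal φ.range ((p 0).ker.map φ) (L.map φ) ?_ ?_ ⟨_, ⟨x, hx, rfl⟩, hx1⟩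
      ⟨_, ⟨y, hy, rfl⟩, hy1⟩ _ ⟨a, rfl⟩ _ ⟨b, rfl⟩
    · rintro _ ⟨c, rfl⟩ _ ⟨z, hz, rfl⟩
      refine ⟨c * z * c⁻¹, (inferInstance : (p 0).ker.Normal).conj_mem z hz c, ?_⟩
      rw [map_mul, map_mul, map_inv]
    · rintro _ ⟨z, hz, rfl⟩ _ ⟨w, hw, rfl⟩
      rw [← commutatorElement_eq_one_iff_mul_comm]
      have h3 : ⁅φ z, φ w⁆ = φ ⁅z, w⁆ := (map_commutatorElement φ z w).symm
      rw [h3]
      apply h
      intro i
      refine Fin.cases ?_ (fun i => ?_) i
      · rw [map_commutatorElement]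
        have h4 : p 0 z = 1 := hz
        rw [h4, commutatorElement_def]
        group
      · rw [map_commutatorElement]
        have h4 : p i.succ w = 1 := (hmem w).1 hw i
        rw [h4, commutatorElement_def]
        group

/-- quotients by intersections of finitely many normal subgroups -/
theorem C_inter (hC : ClosedE C) {J : Type} [Group J] (S : Finset (Subgroup J))
    (hS : ∀ K ∈ S, ∃ _ : K.Normal, C (J ⧸ K)) (R : Subgroup J) [R.Normal]
    (hR : ∀ x, (∀ K ∈ S, x ∈ K) → x ∈ R) (hR' : ∀ K ∈ S, R ≤ K) : C (J ⧸ R) := by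
  classical
  have key : ∃ (P : Type) (_ : Group P) (f : J →* P), C P ∧ ∀ x, f x = 1 ↔ ∀ K ∈ S, x ∈ K := by
    clear hR hR'
    induction S using Finset.induction_on with
    | empty =>
      exact ⟨Multiplicative ℤ, inferInstance, 1, hC.base.int, fun x => by simp⟩
    | insert K S _ ih =>
      obtain ⟨P, _, f, hP, hf⟩ := ih fun K hK => hS K (Finset.mem_insert_of_mem hK)
      obtain ⟨hKn, hCK⟩ := hS K (Finset.mem_insert_self _ _)
      refine ⟨(J ⧸ K) × P, inferInstance, (QuotientGroup.mk' K).prod f, hC.base.prod _ _ hCK hP,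
        fun x => ?_⟩
      rw [Finset.forall_mem_insert, ← hf]
      constructor
      · intro h
        exact ⟨(QuotientGroup.eq_one_iff x).1 (congrArg Prod.fst h), congrArg Prod.snd h⟩
      · rintro ⟨h1, h2⟩
        exact Prod.ext ((QuotientGroup.eq_one_iff x).2 h1) h2
  obtain ⟨P, _, f, hP, hf⟩ := key
  refine hC.base.of_injective _ _ (QuotientGroup.lift R f fun x hx => (hf x).2 fun K hK =>
    hR' K hK hx) ?_ hP
  rw [injective_iff_map_eq_one]
  intro x hx
  obtain ⟨x, rfl⟩ := QuotientGroup.mk_surjective x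
  exact (QuotientGroup.eq_one_iff x).2 (hR x ((hf x).1 hx))

/-- the normal subgroups of `A` whose quotients are nonabelian free groups -/
def KK {J : Type} [Group J] (A : Subgroup J) : Set (Subgroup J) :=
  {K | ∃ (Y : Type) (φ : A →* FreeGroup Y), K = φ.ker.map A.subtype ∧ ∃ a b, φ a * φ b ≠ φ b * φ a}

theorem KK_conj {J : Type} [Group J] (A : Subgroup J) [hA : A.Normal] {K : Subgroup J}
    (hK : K ∈ KK A) (g : J) : K.map (MulAut.conj g).toMonoidHom ∈ KK A := by
  obtain ⟨Y, φ, rfl, a, b, hab⟩ := hK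
  let c : A ≃* A := MulAut.conjNormal g⁻¹
  have hc : ∀ x : A, ((c x : A) : J) = g⁻¹ * x * g := by
    intro x
    show ((MulAut.conjNormal g⁻¹ x : A) : J) = _
    rw [MulAut.conjNormal_apply, inv_inv]
  refine ⟨Y, φ.comp c.toMonoidHom, ?_, c.symm a, c.symm b, ?_⟩
  · ext x
    rw [mem_map_conj]
    constructor
    · rintro ⟨y, hy, hyx⟩
      have hxA : x ∈ A := by
        have h1 := hA.conj_mem _ y.2 g
        have h2 : ((y : A) : J) = g⁻¹ * x * g := hyx
        rw [h2] at h1
        have h3 : g * (g⁻¹ * x * g) * g⁻¹ = x := by group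
        rwa [h3] at h1
      refine ⟨⟨x, hxA⟩, ?_, rfl⟩
      show φ (c ⟨x, hxA⟩) = 1
      have h4 : c ⟨x, hxA⟩ = y := by
        apply Subtype.ext
        rw [hc]
        exact hyx.symm
      rw [h4]
      exact hy
    · rintro ⟨y, hy, rfl⟩
      refine ⟨c y, hy, ?_⟩
      exact hc y
  · simpa using hab

/-- cyclic extensions of subgroups of finite products of free groups -/
theorem sdp' (hC : ClosedE C) (hM : ∀ (G : Type) [Group G], derivedSeries G 2 = ⊥ → C G)
    (hF : FbC C) {J : Type} [Group J] (A : Subgroup J) [hA : A.Normal] (hQ : C (J ⧸ A)) (r : ℕ)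
    (X : Fin r → Type) (p : ∀ i, A →* FreeGroup (X i)) (hp : ∀ x, (∀ i, p i x = 1) → x = 1) :
    C J := by
  classical
  -- the kernels of the projections
  obtain ⟨k, hk⟩ : ∃ k : Fin r → Subgroup J, k = fun i => (p i).ker.map A.subtype := ⟨_, rfl⟩
  have hmemk : ∀ i (x : A), (x : J) ∈ k i ↔ p i x = 1 := by
    intro i x
    rw [hk]
    constructor
    · rintro ⟨y, hy, hyx⟩
      have h1 : y = x := Subtype.ext hyx
      rw [← h1]
      exact hy
    · intro h
      exact ⟨x, h, rfl⟩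
  have hfac : ∀ K ∈ KK A, ∃ i, k i ∈ KK A ∧ k i ≤ K := by
    rintro K ⟨Y, φ, rfl, a, b, hab⟩
    obtain ⟨i, hi⟩ := factor r X p Y φ (fun x hx => by rw [hp x hx, map_one]) ⟨a, b, hab⟩
    refine ⟨i, ⟨X i, p i, ?_, a, b, ?_⟩, ?_⟩
    · rw [hk]
    · intro h
      apply hab
      rw [← commutatorElement_eq_one_iff_mul_comm, ← map_commutatorElement] at h ⊢
      exact hi h
    · rw [hk]
      exact Subgroup.map_mono hi
  have hfinKK : ∀ K, Minimal (· ∈ KK A) K → ∃ i, K = k i := by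
    intro K hK
    obtain ⟨i, hi, hle⟩ := hfac K hK.1
    exact ⟨i, le_antisymm (hK.2 hi hle) hle⟩
  obtain ⟨S, hS⟩ : ∃ S : Finset (Subgroup J), ∀ K, K ∈ S ↔ Minimal (· ∈ KK A) K := by
    have hfin : {K | Minimal (· ∈ KK A) K}.Finite :=
      (Set.finite_range k).subset fun K hK => by
        obtain ⟨i, hi⟩ := hfinKK K hK
        exact ⟨i, hi.symm⟩
    exact ⟨hfin.toFinset, fun K => hfin.mem_toFinset⟩
  have hmin : ∀ K ∈ KK A, ∃ K' ∈ S, K' ≤ K := by
    intro K hK
    obtain ⟨i, hi, hle⟩ := hfac K hK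
    have hfin : {K' | K' ∈ KK A ∧ ∃ j, K' = k j}.Finite :=
      (Set.finite_range k).subset fun K' hK' => by
        obtain ⟨_, j, hj⟩ := hK'
        exact ⟨j, hj.symm⟩
    obtain ⟨m, hm, hmin⟩ := hfin.exists_le_minimal (show k i ∈ {K' | K' ∈ KK A ∧ ∃ j, K' = k j} from
      ⟨hi, i, rfl⟩)
    refine ⟨m, (hS m).2 ⟨hmin.1.1, fun K' hK' hle' => ?_⟩, hm.trans hle⟩
    obtain ⟨j, hj, hjle⟩ := hfac K' hK'
    exact (hmin.2 ⟨hj, j, rfl⟩ (hjle.trans hle')).trans hjle
  have hSA : ∀ K ∈ S, K ≤ A := by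
    intro K hK
    obtain ⟨i, rfl⟩ := hfinKK K ((hS K).1 hK)
    rw [hk]
    rintro _ ⟨y, _, rfl⟩
    exact y.2
  have hSconj : ∀ K ∈ S, ∀ g : J, K.map (MulAut.conj g).toMonoidHom ∈ S := by
    intro K hK g
    rw [hS] at hK ⊢
    refine ⟨KK_conj A hK.1 g, fun K' hK' hle => ?_⟩
    have h1 : K'.map (MulAut.conj g⁻¹).toMonoidHom ≤ K := by
      rintro _ ⟨y, hy, rfl⟩
      have h2 := hle hy
      rw [mem_map_conj] at h2
      show g⁻¹ * y * g⁻¹⁻¹ ∈ K
      rwa [inv_inv]
    have h2 := hK.2 (KK_conj A hK' g⁻¹) h1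
    intro x hx
    rw [mem_map_conj] at hx
    have h3 := h2 hx
    rw [mem_map_conj] at h3
    have h4 : g⁻¹⁻¹ * (g⁻¹ * x * g) * g⁻¹ = x := by group
    rwa [h4] at h3
  -- the normalizer of the minimal kernels
  obtain ⟨J0, hJ0⟩ : ∃ J0 : Subgroup J, J0 = ⨅ K : S, Subgroup.normalizer ((K : Subgroup J) : Set J) :=
    ⟨_, rfl⟩
  have hmemN : ∀ (K : Subgroup J) (g : J), g ∈ Subgroup.normalizer (K : Set J) ↔
      K.map (MulAut.conj g).toMonoidHom = K := by
    intro K g
    rw [Subgroup.mem_normalizer_iff]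
    constructor
    · intro h
      ext x
      rw [mem_map_conj]
      have h1 : g * (g⁻¹ * x * g) * g⁻¹ = x := by group
      constructor
      · intro hx
        have := (h _).1 hx
        rwa [h1] at this
      · intro hx
        rw [h, h1]
        exact hx
    · intro h x
      have h1 : g⁻¹ * (g * x * g⁻¹) * g = x := by group
      constructor
      · intro hx
        rw [← h, mem_map_conj, h1]
        exact hx
      · intro hx
        rw [← h, mem_map_conj, h1] at hx
        exact hx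
  have hfi : J0.FiniteIndex := by
    rw [hJ0]
    refine Subgroup.finiteIndex_iInf fun K => ?_
    obtain ⟨K, hK⟩ := K
    have hinj : Function.Injective (Quotient.lift (s := QuotientGroup.leftRel
        (Subgroup.normalizer ((K : Subgroup J) : Set J))) (fun g : J =>
        (⟨K.map (MulAut.conj g).toMonoidHom, hSconj K hK g⟩ : S)) (by
          intro a b hab
          have h1 : a⁻¹ * b ∈ Subgroup.normalizer ((K : Subgroup J) : Set J) :=
            QuotientGroup.leftRel_apply.1 hab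
          rw [hmemN] at h1
          apply Subtype.ext
          show K.map (MulAut.conj a).toMonoidHom = K.map (MulAut.conj b).toMonoidHom
          conv_lhs => rw [← h1]
          ext x
          rw [mem_map_conj, mem_map_conj, mem_map_conj]
          have h2 : (a⁻¹ * b)⁻¹ * (a⁻¹ * x * a) * (a⁻¹ * b) = b⁻¹ * x * b := by group
          rw [h2])) := by
      rintro ⟨a⟩ ⟨b⟩ hab
      refine Quotient.sound ?_
      have h1 : K.map (MulAut.conj a).toMonoidHom = K.map (MulAut.conj b).toMonoidHom :=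
        congrArg Subtype.val hab
      refine QuotientGroup.leftRel_apply.2 ((hmemN K _).2 ?_)
      ext x
      rw [mem_map_conj]
      have h2 : a * x * a⁻¹ ∈ K.map (MulAut.conj a).toMonoidHom ↔
          a * x * a⁻¹ ∈ K.map (MulAut.conj b).toMonoidHom := by rw [h1]
      rw [mem_map_conj, mem_map_conj] at h2
      have h3 : a⁻¹ * (a * x * a⁻¹) * a = x := by group
      have h4 : b⁻¹ * (a * x * a⁻¹) * b = (a⁻¹ * b)⁻¹ * x * (a⁻¹ * b) := by group
      rw [h3, h4] at h2
      exact h2.symm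
    have : Finite (J ⧸ Subgroup.normalizer ((K : Subgroup J) : Set J)) :=
      Finite.of_injective _ hinj
    exact Subgroup.finiteIndex_of_finite_quotient
  refine hC.base.finiteIndex J J0 hfi ?_
  have hAJ : A ≤ J0 := by
    rw [hJ0]
    refine le_iInf fun K => ?_
    obtain ⟨K, hK⟩ := K
    obtain ⟨i, hi⟩ := hfinKK K ((hS K).1 hK)
    intro a ha
    show a ∈ Subgroup.normalizer ((K : Subgroup J) : Set J)
    rw [Subgroup.mem_normalizer_iff]
    have key : ∀ a ∈ A, ∀ x ∈ K, a * x * a⁻¹ ∈ K := by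
      intro a ha x hx
      have hxA := hSA K hK hx
      rw [hi] at hx ⊢
      have h1 := (hmemk i ⟨x, hxA⟩).1 hx
      refine (hmemk i ⟨a * x * a⁻¹, A.mul_mem (A.mul_mem ha hxA) (A.inv_mem ha)⟩).2 ?_
      have h2 : (⟨a * x * a⁻¹, A.mul_mem (A.mul_mem ha hxA) (A.inv_mem ha)⟩ : A) =
        ⟨a, ha⟩ * ⟨x, hxA⟩ * ⟨a, ha⟩⁻¹ := rfl
      rw [h2, map_mul, map_mul, h1, mul_one, ← map_mul, mul_inv_cancel, map_one]
    intro x
    constructor
    · exact key a ha x
    · intro h
      have h1 := key a⁻¹ (A.inv_mem ha) _ h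
      have h2 : a⁻¹ * (a * x * a⁻¹) * a⁻¹⁻¹ = x := by group
      rwa [h2] at h1
  -- the abelian normal subgroup
  obtain ⟨R, hR⟩ : ∃ R : Subgroup J, R = A ⊓ ⨅ K : S, (K : Subgroup J) := ⟨_, rfl⟩
  have hmemR : ∀ x, x ∈ R ↔ x ∈ A ∧ ∀ K ∈ S, x ∈ K := by
    intro x
    rw [hR, Subgroup.mem_inf, Subgroup.mem_iInf]
    exact ⟨fun h => ⟨h.1, fun K hK => h.2 ⟨K, hK⟩⟩, fun h => ⟨h.1, fun K => h.2 K K.2⟩⟩
  have hRab : ∀ x ∈ R, ∀ y ∈ R, x * y = y * x := by
    intro x hx y hy
    rw [hmemR] at hx hy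
    obtain ⟨hxA, hx⟩ := hx
    obtain ⟨hyA, hy⟩ := hy
    have h1 : (⟨x, hxA⟩ : A) * ⟨y, hyA⟩ = ⟨y, hyA⟩ * ⟨x, hxA⟩ := by
      rw [← commutatorElement_eq_one_iff_mul_comm]
      apply hp
      intro i
      rw [map_commutatorElement, commutatorElement_eq_one_iff_mul_comm]
      by_cases hki : k i ∈ KK A
      · obtain ⟨K', hK', hle⟩ := hmin _ hki
        have h2 := (hmemk i ⟨x, hxA⟩).1 (hle (hx K' hK'))
        rw [h2, one_mul, mul_one]
      · by_contra hne
        apply hki
        refine ⟨X i, p i, ?_, _, _, hne⟩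
        rw [hk]
    exact congrArg Subtype.val h1
  have hRn : R.Normal := by
    refine ⟨fun x hx g => ?_⟩
    rw [hmemR] at hx ⊢
    refine ⟨hA.conj_mem x hx.1 g, fun K hK => ?_⟩
    have h1 := hx.2 _ (hSconj K hK g⁻¹)
    rw [mem_map_conj, inv_inv] at h1
    exact h1
  -- work in `J0`
  have hRJ : (R.subgroupOf J0).Normal := inferInstance
  refine ab_ext hC hM (R.subgroupOf J0) (fun x hx y hy => Subtype.ext (hRab x hx y hy)) ?_
  obtain ⟨S', hS'⟩ : ∃ S' : Finset (Subgroup J0), S' =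
      insert (A.subgroupOf J0) (S.image fun K => K.subgroupOf J0) := ⟨_, rfl⟩
  have hCA : C (J0 ⧸ A.subgroupOf J0) := by
    refine hC.base.of_injective _ _ (QuotientGroup.lift (A.subgroupOf J0)
      ((QuotientGroup.mk' A).comp J0.subtype) ?_) ?_ hQ
    · intro x hx
      exact (QuotientGroup.eq_one_iff _).2 hx
    · rw [injective_iff_map_eq_one]
      intro x hx
      obtain ⟨x, rfl⟩ := QuotientGroup.mk_surjective x
      have h2 : ((x : J) : J ⧸ A) = 1 := hx
      rw [QuotientGroup.eq_one_iff] at h2 ⊢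
      exact h2
  refine C_inter hC S' ?_ (R.subgroupOf J0) ?_ ?_
  · intro K' hK'
    rw [hS', Finset.mem_insert, Finset.mem_image] at hK'
    rcases hK' with rfl | ⟨K, hK, rfl⟩
    · exact ⟨inferInstance, hCA⟩
    · have hKA := hSA K hK
      have hKJ : K ≤ J0 := hKA.trans hAJ
      have hle : J0 ≤ Subgroup.normalizer ((K : Subgroup J) : Set J) := by
        rw [hJ0]
        exact iInf_le _ (⟨K, hK⟩ : S)
      have hKn : (K.subgroupOf J0).Normal := (Subgroup.normal_subgroupOf_iff_le_normalizer hKJ).2 hle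
      refine ⟨hKn, ?_⟩
      obtain ⟨D, hD⟩ : ∃ D : Subgroup (J0 ⧸ K.subgroupOf J0), D =
          (A.subgroupOf J0).map (QuotientGroup.mk' (K.subgroupOf J0)) := ⟨_, rfl⟩
      have hDn : D.Normal := by
        rw [hD]
        exact Subgroup.Normal.map inferInstance _ (QuotientGroup.mk'_surjective _)
      have hKle : K.subgroupOf J0 ≤ A.subgroupOf J0 := Subgroup.comap_mono hKA
      obtain ⟨Y, φ, hφ, -⟩ := ((hS K).1 hK).1
      have hfree : IsFreeGroup D := by
        obtain ⟨q, hq⟩ : ∃ q : A →* D, ∀ x : A, ((q x : D) : J0 ⧸ K.subgroupOf J0) =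
            QuotientGroup.mk' (K.subgroupOf J0) ⟨x, hAJ x.2⟩ := by
          refine ⟨((QuotientGroup.mk' (K.subgroupOf J0)).comp (Subgroup.inclusion hAJ)).codRestrict D
            fun x => ?_, fun x => rfl⟩
          rw [hD]
          exact ⟨⟨x, hAJ x.2⟩, x.2, rfl⟩
        have hqs : Function.Surjective q := by
          rintro ⟨y, hy⟩
          rw [hD] at hy
          obtain ⟨x, hx, rfl⟩ := hy
          exact ⟨⟨x, hx⟩, Subtype.ext (hq _)⟩
        have hqk : q.ker = φ.ker := by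
          ext x
          rw [MonoidHom.mem_ker, MonoidHom.mem_ker]
          have h0 : (x : J) ∈ K ↔ φ x = 1 := by
            rw [hφ]
            constructor
            · rintro ⟨y, hy, hyx⟩
              have h1 : y = x := Subtype.ext hyx
              rw [← h1]
              exact hy
            · intro h
              exact ⟨x, h, rfl⟩
          rw [← h0]
          constructor
          · intro h
            have h1 := hq x
            rw [h] at h1
            exact (QuotientGroup.eq_one_iff (⟨x, hAJ x.2⟩ : J0)).1 h1.symm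
          · intro h
            apply Subtype.ext
            rw [hq]
            exact (QuotientGroup.eq_one_iff (⟨x, hAJ x.2⟩ : J0)).2 h
        have e1 : D ≃* A ⧸ q.ker := (QuotientGroup.quotientKerEquivOfSurjective q hqs).symm
        have e2 : A ⧸ q.ker ≃* A ⧸ φ.ker := QuotientGroup.quotientMulEquivOfEq hqk
        have e3 : A ⧸ φ.ker ≃* φ.range := QuotientGroup.quotientKerEquivRange φ
        have : IsFreeGroup φ.range := inferInstance
        exact IsFreeGroup.ofMulEquiv ((e1.trans e2).trans e3).symm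
      refine free_ext hC hF D ?_
      subst hD
      exact C_equiv hC.base (QuotientGroup.quotientQuotientEquivQuotient (K.subgroupOf J0)
        (A.subgroupOf J0) hKle) hCA
  · intro x hx
    have h1 : x ∈ A.subgroupOf J0 := hx _ (by rw [hS']; exact Finset.mem_insert_self _ _)
    have h2 : ∀ K ∈ S, (x : J) ∈ K := by
      intro K hK
      exact hx (K.subgroupOf J0) (by
        rw [hS']
        exact Finset.mem_insert_of_mem (Finset.mem_image_of_mem _ hK))
    exact (hmemR _).2 ⟨h1, h2⟩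
  · intro K' hK' x hx
    have h1 := (hmemR _).1 hx
    rw [hS', Finset.mem_insert, Finset.mem_image] at hK'
    rcases hK' with rfl | ⟨K, hK, rfl⟩
    · exact h1.1
    · exact h1.2 K hK

/-- **subgroups of finite direct products of free groups**, cyclic extensions inside a group -/
theorem sdp (hC : ClosedE C) (hM : ∀ (G : Type) [Group G], derivedSeries G 2 = ⊥ → C G)
    (hF : FbC C) {G : Type} [Group G] (A : Subgroup G) (g : G)
    (hg : ∀ x ∈ A, g * x * g⁻¹ ∈ A) (hg' : ∀ x ∈ A, g⁻¹ * x * g ∈ A) (r : ℕ)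
    (X : Fin r → Type) (p : ∀ i, A →* FreeGroup (X i)) (hp : ∀ x, (∀ i, p i x = 1) → x = 1) :
    C ↥(A ⊔ Subgroup.zpowers g) := by
  obtain ⟨J, hJ⟩ : ∃ J : Subgroup G, J = A ⊔ Subgroup.zpowers g := ⟨_, rfl⟩
  rw [← hJ]
  have hAJ : A ≤ J := by
    rw [hJ]
    exact le_sup_left
  have hgJ : g ∈ J := by
    rw [hJ]
    exact Subgroup.mem_sup_right (Subgroup.mem_zpowers g)
  have hnorm : J ≤ Subgroup.normalizer (A : Set G) := by
    rw [hJ]
    refine sup_le Subgroup.le_normalizer ?_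
    rw [Subgroup.zpowers_le, Subgroup.mem_normalizer_iff]
    intro x
    constructor
    · exact hg x
    · intro h
      have := hg' _ h
      have h2 : g⁻¹ * (g * x * g⁻¹) * g = x := by group
      rwa [h2] at this
  have hAn : (A.subgroupOf J).Normal := Subgroup.normal_subgroupOf_iff_le_normalizer hAJ |>.2 hnorm
  have e : A.subgroupOf J ≃* A := Subgroup.subgroupOfEquivOfLe hAJ
  refine sdp' hC hM hF (J := J) (A.subgroupOf J) ?_ r X (fun i => (p i).comp e.toMonoidHom)
    (fun x hx => ?_)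
  · have h1 : Subgroup.zpowers ((⟨g, hgJ⟩ : J) : J ⧸ A.subgroupOf J) = ⊤ := by
      rw [eq_top_iff]
      rintro x -
      obtain ⟨⟨x, hx⟩, rfl⟩ := QuotientGroup.mk_surjective x
      have hx' : x ∈ A ⊔ Subgroup.zpowers g := hJ ▸ hx
      have hmem : ∃ a ∈ A, ∃ i : ℤ, a * g ^ i = x := by
        have h2 : (⟨x, hx⟩ : J) ∈ (A.subgroupOf J) ⊔ Subgroup.zpowers (⟨g, hgJ⟩ : J) := by
          have h3 : ((A.subgroupOf J) ⊔ Subgroup.zpowers (⟨g, hgJ⟩ : J)).map J.subtype = J := by
            rw [Subgroup.map_sup, MonoidHom.map_zpowers, Subgroup.subgroupOf_map_subtype,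
              inf_eq_left.2 hAJ]
            exact hJ.symm
          have h4 : x ∈ ((A.subgroupOf J) ⊔ Subgroup.zpowers (⟨g, hgJ⟩ : J)).map J.subtype := by
            rw [h3]
            exact hx
          obtain ⟨y, hy, hyx⟩ := h4
          have h5 : y = ⟨x, hx⟩ := Subtype.ext hyx
          rwa [← h5]
        obtain ⟨a, ha, _, ⟨i, rfl⟩, h⟩ := mem_sup_normal.1 h2
        exact ⟨a, ha, i, congrArg Subtype.val h⟩
      obtain ⟨a, ha, i, hi⟩ := hmem
      refine ⟨i, ?_⟩
      show ((⟨g, hgJ⟩ : J) : J ⧸ A.subgroupOf J) ^ i = _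
      have h2 : (⟨x, hx⟩ : J) = ⟨a, hAJ ha⟩ * ⟨g, hgJ⟩ ^ i := Subtype.ext hi.symm
      rw [h2, QuotientGroup.mk_mul, (QuotientGroup.eq_one_iff (⟨a, hAJ ha⟩ : J)).2 ha, one_mul]
      rfl
    have h2 := C_cyc hC.base ((⟨g, hgJ⟩ : J) : J ⧸ A.subgroupOf J)
    rw [h1] at h2
    exact C_equiv hC.base Subgroup.topEquiv.symm h2
  · exact e.injective (by rw [map_one]; exact hp _ hx)

end Pool.Agent.Run7.h650.GM
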