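import Pool.Agent.Run7.h650.GM.Main0
import Pool.Agent.Run7.h650.GM.Sdp

/-!
# Extensions by groups acting on trees

Owner helper650.
-/

set_option autoImplicit false

namespace Pool.Agent.Run7.h650.GM

open SimpleGraph
open scoped commutatorElement
open Pool.Agent.Y110.FJ
open Pool.Agent.R941.FJ (C_equiv C_le)
open Pool.Agent.N509.TX (of_fg)
open Pool.Agent.R684.FP (FbC)
open Pool.Agent.N24.TR (gam gam_mul gam_adj gam_self gam_map)

variable {C : ∀ (G : Type) [Group G], Prop}
variable {G V : Type} [Group G] [MulAction G V] {T : SimpleGraph V}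

/-- the case of a normal subgroup whose vertex groups are finitely generated and satisfy the
condition on the edges for all large primes -/
theorem main0 (hC : ClosedE C) (hM : ∀ (G : Type) [Group G], derivedSeries G 2 = ⊥ → C G)
    (hT : T.IsTree) (hact : ∀ (g : G) (u v : V), T.Adj u v → T.Adj (g • u) (g • v))
    (N : Subgroup G) [hN : N.Normal] (hQ : C (G ⧸ N)) (hfg : ∀ v : V, (Nv N v).FG)
    (hE : ∀ v w, T.Adj v w → ∃ p0 : ℕ, ∀ p : ℕ, p.Prime → p0 ≤ p → DE N p v w)
    (hV : ∀ (v : V) (g : G), g • v = v → C ↥(Nv N v ⊔ Subgroup.zpowers g)) : C G := by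
  classical
  obtain ⟨o⟩ := hT.connected.nonempty
  obtain ⟨par, hpar'⟩ : ∃ par : V → V → Multiplicative (ZMod 2),
      par = fun _ _ => Multiplicative.ofAdd (1 : ZMod 2) := ⟨_, rfl⟩
  have hp : ∀ u v, T.Adj u v → par u v * par v u = 1 := by
    intro u v h
    rw [hpar']
    show (Multiplicative.ofAdd (1 : ZMod 2)) * (Multiplicative.ofAdd (1 : ZMod 2)) = 1
    decide
  have hpm : ∀ (g : G) (u v : V), gam hT par (g • u) (g • v) = gam hT par u v := fun g u v =>
    gam_map hT hact par hp g (MonoidHom.id _) (fun _ _ => by rw [hpar']; rfl) u v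
  let τ : G →* Multiplicative (ZMod 2) := MonoidHom.mk' (fun g => gam hT par o (g • o)) (by
    intro g h
    rw [mul_smul, ← gam_mul hT par hp o (g • o) (g • h • o), hpm])
  have hτ : ∀ g, τ g = gam hT par o (g • o) := fun g => rfl
  have h2 : ∀ x : Multiplicative (ZMod 2), x = 1 ∨ x = Multiplicative.ofAdd (1 : ZMod 2) := by
    decide
  refine hC.base.finiteIndex G τ.ker inferInstance (of_fg hC fun H hH => ?_)
  refine C_equiv hC.base (H.equivMapOfInjective τ.ker.subtype τ.ker.subtype_injective)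
    (main1 hC hM hT hact N hQ hfg hE hV (fun v => decide (gam hT par o v = 1)) ?_
      (H.map τ.ker.subtype) ?_ ?_)
  · intro u v huv h
    have h3 : gam hT par o v = gam hT par o u * par u v := by
      rw [← gam_mul hT par hp o u v, gam_adj hT par hp huv]
    have h30 : par u v = Multiplicative.ofAdd (1 : ZMod 2) := by rw [hpar']
    rw [h30] at h3
    have h4 : (gam hT par o u = 1) ↔ (gam hT par o v = 1) := by simpa using h
    rcases h2 (gam hT par o u) with h5 | h5
    · have h6 := h4.1 h5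
      rw [h6, h5, one_mul] at h3
      exact absurd h3.symm (by decide)
    · have h6 : gam hT par o v = 1 := by
        rw [h3, h5]
        decide
      rw [h4.2 h6] at h5
      exact absurd h5 (by decide)
  · have := hH
    exact Group.fg_of_surjective
      (f := (H.equivMapOfInjective τ.ker.subtype τ.ker.subtype_injective).toMonoidHom)
      (H.equivMapOfInjective τ.ker.subtype τ.ker.subtype_injective).surjective
  · rintro _ ⟨g, hg, rfl⟩ v
    have h3 : gam hT par o ((g : G) • o) = 1 := g.2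
    show decide (gam hT par o ((g : G) • v) = 1) = decide (gam hT par o v = 1)
    rw [← gam_mul hT par hp o ((g : G) • o) ((g : G) • v), h3, one_mul, hpm]

/-- the condition on the vertex `v`: the stabilizer of `v` in `M` embeds in a direct product of
finitely many free groups; or the extensions of the stabilizer of `v` in `N` by cyclic groups are in
the class, and for each edge at `v` finitely many homomorphisms from the stabilizer of `v` in `M` to
free groups are jointly injective on the stabilizer of the edge -/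
def VC (C : ∀ (G : Type) [Group G], Prop) (T : SimpleGraph V) (M N : Subgroup G) (v : V) : Prop :=
  (∃ (r : ℕ) (X : Fin r → Type) (φ : ∀ i, ↥(M ⊓ MulAction.stabilizer G v) →* FreeGroup (X i)),
    ∀ x, (∀ i, φ i x = 1) → x = 1) ∨
  ((∀ g : G, g • v = v → C ↥((N ⊓ MulAction.stabilizer G v) ⊔ Subgroup.zpowers g)) ∧
    ∀ w, T.Adj v w → ∃ (r : ℕ) (X : Fin r → Type)
      (φ : ∀ i, ↥(M ⊓ MulAction.stabilizer G v) →* FreeGroup (X i)),
      ∀ x : ↥(M ⊓ MulAction.stabilizer G v), (x : G) • w = w → (∀ i, φ i x = 1) → x = 1)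

/-- both cases give homomorphisms to free groups -/
theorem VC.homs {M N : Subgroup G} {v : V} (h : VC C T M N v) {w : V} (hvw : T.Adj v w) :
    ∃ (r : ℕ) (X : Fin r → Type)
      (φ : ∀ i, ↥(M ⊓ MulAction.stabilizer G v) →* FreeGroup (X i)),
      ∀ x : ↥(M ⊓ MulAction.stabilizer G v), (x : G) • w = w → (∀ i, φ i x = 1) → x = 1 := by
  rcases h with ⟨r, X, φ, hφ⟩ | ⟨_, h⟩
  · exact ⟨r, X, φ, fun x _ hx => hφ x hx⟩
  · exact h w hvw

/-- **the main theorem** -/
theorem main2 (hC : ClosedE C) (hM : ∀ (G : Type) [Group G], derivedSeries G 2 = ⊥ → C G)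
    (hF : FbC C) (hT : T.IsTree)
    (hact : ∀ (g : G) (u v : V), T.Adj u v → T.Adj (g • u) (g • v))
    (N : Subgroup G) [hN : N.Normal] (hQ : C (G ⧸ N)) (M : Subgroup G) (hMN : M ≤ N)
    (hMi : M.relIndex N ≠ 0) (hfg : ∀ v : V, (N ⊓ MulAction.stabilizer G v).FG)
    (hab : ∀ v w, T.Adj v w → ∀ x ∈ M, ∀ y ∈ M, x • v = v → x • w = w → y • v = v → y • w = w →
      x * y = y * x)
    (hV : ∀ v : V, VC C T M N v) : C G := by
  obtain ⟨L, hL⟩ : ∃ L : Subgroup G, L = M.normalCore := ⟨_, rfl⟩
  have hLn : L.Normal := by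
    rw [hL]
    infer_instance
  have hLM : L ≤ M := by
    rw [hL]
    exact M.normalCore_le
  have hQL : C (G ⧸ L) := by
    subst hL
    exact core_C hC hMN hMi hQ
  have hle : ∀ v : V, Nv L v ≤ M ⊓ MulAction.stabilizer G v := fun v => inf_le_inf_right _ hLM
  have hleN : ∀ v : V, Nv L v ≤ N ⊓ MulAction.stabilizer G v := fun v =>
    inf_le_inf_right _ (hLM.trans hMN)
  refine main0 hC hM hT hact L hQL ?_ ?_ ?_
  · intro v
    have h1 : L.relIndex (N ⊓ MulAction.stabilizer G v) ≠ 0 := by
      rw [hL]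
      exact core_index hMi _ (hfg v) inf_le_left
    have h2 : ((Nv L v).subgroupOf (N ⊓ MulAction.stabilizer G v)) =
        L.subgroupOf (N ⊓ MulAction.stabilizer G v) := by
      ext x
      rw [Subgroup.mem_subgroupOf, Subgroup.mem_subgroupOf]
      exact ⟨fun h => h.1, fun h => ⟨h, x.2.2⟩⟩
    have h3 : Group.FG ↥(N ⊓ MulAction.stabilizer G v) := (Group.fg_iff_subgroup_fg _).2 (hfg v)
    have h4 : (L.subgroupOf (N ⊓ MulAction.stabilizer G v)).FiniteIndex := ⟨h1⟩
    rw [← h2] at h4
    have h5 : Group.FG ↥((Nv L v).subgroupOf (N ⊓ MulAction.stabilizer G v)) :=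
      Subgroup.fg_of_index_ne_zero _
    rw [← Group.fg_iff_subgroup_fg]
    exact Group.fg_of_surjective (f := (Subgroup.subgroupOfEquivOfLe (hleN v)).toMonoidHom)
      (Subgroup.subgroupOfEquivOfLe (hleN v)).surjective
  · intro v w hvw
    obtain ⟨r, X, φ, hφ⟩ := (hV v).homs hvw
    refine Dt_of_free r _ ?_ X (fun i => (φ i).comp (Subgroup.inclusion (hle v))) ?_
    · rintro x ⟨_, hx⟩ y ⟨_, hy⟩
      apply Subtype.ext
      exact hab v w hvw x (hLM x.2.1) y (hLM y.2.1) x.2.2 hx.2 y.2.2 hy.2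
    · rintro x ⟨_, hx⟩ h
      have h1 := hφ (Subgroup.inclusion (hle v) x) hx.2 h
      apply Subtype.ext
      exact congrArg (fun z : ↥(M ⊓ MulAction.stabilizer G v) => (z : G)) h1
  · intro v g hg
    rcases hV v with ⟨r, X, φ, hφ⟩ | ⟨h, _⟩
    · have hc : ∀ g : G, g • v = v → ∀ x ∈ Nv L v, g * x * g⁻¹ ∈ Nv L v := by
        rintro g hg x ⟨hx1, hx2⟩
        refine ⟨hLn.conj_mem x hx1 g, ?_⟩
        show (g * x * g⁻¹) • v = v
        have h1 : g⁻¹ • v = v := by rw [inv_smul_eq_iff, hg]
        have h2 : x • v = v := hx2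
        rw [mul_smul, mul_smul, h1, h2, hg]
      refine sdp hC hM hF (Nv L v) g (hc g hg) ?_ r X
        (fun i => (φ i).comp (Subgroup.inclusion (hle v))) ?_
      · intro x hx
        have h1 := hc g⁻¹ (by rw [inv_smul_eq_iff, hg]) x hx
        rwa [inv_inv] at h1
      · intro x hx
        exact Subgroup.inclusion_injective (hle v) (by rw [map_one]; exact hφ _ hx)
    · exact C_le hC.base (sup_le_sup_right (hleN v) _) (h g hg)

end Pool.Agent.Run7.h650.GM
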