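import Pool.Agent.R684.FP.Free
import Pool.Agent.N509.TK.Fin
import Pool.Agent.H26R2.Basic

/-!
# Vertex groups which embed in the product of an abelian group and a free group

Owner helper650.
-/

set_option autoImplicit false

namespace Pool.Agent.Run7.h650.GM

open scoped commutatorElement
open Pool.Agent.Y110.FJ
open Pool.Agent.R941.FJ (C_equiv C_le C_cyc mem_sup_normal)
open Pool.Agent.N509.TK (metab)
open Pool.Agent.R684.FP (FbC free_ext)

variable {C : ∀ (G : Type) [Group G], Prop}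

/-- extensions with abelian kernels -/
theorem ab_ext (hC : ClosedE C) (hM : ∀ (G : Type) [Group G], derivedSeries G 2 = ⊥ → C G)
    {J : Type} [Group J] (N : Subgroup J) [N.Normal] (hab : ∀ x ∈ N, ∀ y ∈ N, x * y = y * x)
    (hQ : C (J ⧸ N)) : C J := by
  have key : ∀ g : J, C ↥(N ⊔ Subgroup.zpowers g) := by
    intro g
    refine hM _ (metab (N.subgroupOf (N ⊔ Subgroup.zpowers g)) ?_ ?_)
    · intro x hx y hy
      exact Subtype.ext (hab x hx y hy)
    · rintro ⟨x, hx⟩ ⟨y, hy⟩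
      obtain ⟨a, ha, _, ⟨i, rfl⟩, rfl⟩ := mem_sup_normal.1 hx
      obtain ⟨b, hb, _, ⟨j, rfl⟩, rfl⟩ := mem_sup_normal.1 hy
      rw [Subgroup.mem_subgroupOf]
      show ⁅a * g ^ i, b * g ^ j⁆ ∈ N
      rw [← QuotientGroup.eq_one_iff]
      have h1 : ((⁅a * g ^ i, b * g ^ j⁆ : J) : J ⧸ N) =
          ⁅((a * g ^ i : J) : J ⧸ N), ((b * g ^ j : J) : J ⧸ N)⁆ := rfl
      rw [h1, QuotientGroup.mk_mul, QuotientGroup.mk_mul, (QuotientGroup.eq_one_iff a).2 ha,
        (QuotientGroup.eq_one_iff b).2 hb, one_mul, one_mul, commutatorElement_eq_one_iff_mul_comm]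
      show ((g : J ⧸ N)) ^ i * ((g : J ⧸ N)) ^ j = _
      rw [← zpow_add, add_comm, zpow_add]
      rfl
  refine Pool.Agent.Y529.FJ.t_ext C hC _ N ?_ hQ fun g _ => key g
  exact C_le hC.base le_sup_left (key 1)

/-- commutation is transitive in free groups -/
theorem free_trans {X : Type} {a b c : FreeGroup X} (hc : c ≠ 1) (hac : a * c = c * a)
    (hbc : b * c = c * b) : a * b = b * a := by
  obtain ⟨r, i, j, h1, h2⟩ := Pool.Agent.H26R2.exists_root (b := a) (c := c) hac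
  obtain ⟨s, k, l, h3, h4⟩ := Pool.Agent.H26R2.exists_root (b := b) (c := c) hbc
  have hj : j ≠ 0 := by
    rintro rfl
    exact hc (by rw [h2, zpow_zero])
  have hl : l ≠ 0 := by
    rintro rfl
    exact hc (by rw [h4, zpow_zero])
  have e1 : r ^ j * s * (r ^ j)⁻¹ = s := by
    rw [← h2, h4]
    group
  have e2 : r ^ j = (s * r * s⁻¹) ^ j := by
    rw [conj_zpow]
    have h5 : s * r ^ j * s⁻¹ = r ^ j * ((r ^ j)⁻¹ * s * r ^ j) * s⁻¹ := by group
    have h6 : (r ^ j)⁻¹ * s * r ^ j = s := by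
      conv_lhs => rw [← e1]
      group
    rw [h5, h6]
    group
  have e3 : r = s * r * s⁻¹ := zpow_left_injective hj e2
  have e4 : Commute r s := by
    show r * s = s * r
    conv_lhs => rw [e3]
    group
  rw [h1, h3]
  exact (e4.zpow_left i).zpow_right k

/-- cyclic extensions of groups which embed in the product of an abelian and a free group -/
theorem vert' (hC : ClosedE C) (hM : ∀ (G : Type) [Group G], derivedSeries G 2 = ⊥ → C G)
    (hF : FbC C) {J Z X : Type} [Group J] [CommGroup Z] (A : Subgroup J) [hA : A.Normal] (g : J)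
    (hg : ∀ x : J, x ∈ A ⊔ Subgroup.zpowers g) (ι : A →* Z × FreeGroup X)
    (hι : Function.Injective ι) : C J := by
  have hcomm : ∀ x y : J, ⁅x, y⁆ ∈ A := by
    intro x y
    obtain ⟨a, ha, _, ⟨i, rfl⟩, rfl⟩ := mem_sup_normal.1 (hg x)
    obtain ⟨b, hb, _, ⟨j, rfl⟩, rfl⟩ := mem_sup_normal.1 (hg y)
    rw [← QuotientGroup.eq_one_iff]
    have h1 : ((⁅a * g ^ i, b * g ^ j⁆ : J) : J ⧸ A) =
        ⁅((a * g ^ i : J) : J ⧸ A), ((b * g ^ j : J) : J ⧸ A)⁆ := rfl
    rw [h1, QuotientGroup.mk_mul, QuotientGroup.mk_mul, (QuotientGroup.eq_one_iff a).2 ha,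
      (QuotientGroup.eq_one_iff b).2 hb, one_mul, one_mul, commutatorElement_eq_one_iff_mul_comm]
    show ((g : J ⧸ A)) ^ i * ((g : J ⧸ A)) ^ j = _
    rw [← zpow_add, add_comm, zpow_add]
    rfl
  by_cases hab : ∀ x ∈ A, ∀ y ∈ A, x * y = y * x
  · exact hM _ (metab A hab hcomm)
  push Not at hab
  obtain ⟨a, ha, b, hb, hne⟩ := hab
  obtain ⟨π, hπ⟩ : ∃ π : A →* FreeGroup X, π = (MonoidHom.snd Z (FreeGroup X)).comp ι := ⟨_, rfl⟩
  have hπι : ∀ x, π x = (ι x).2 := by
    intro x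
    rw [hπ]
    rfl
  have hnc : π ⟨a, ha⟩ * π ⟨b, hb⟩ ≠ π ⟨b, hb⟩ * π ⟨a, ha⟩ := by
    intro h
    apply hne
    have h1 : ι (⟨a, ha⟩ * ⟨b, hb⟩) = ι (⟨b, hb⟩ * ⟨a, ha⟩) := by
      rw [map_mul, map_mul]
      refine Prod.ext (mul_comm _ _) ?_
      rw [hπι, hπι] at h
      exact h
    exact congrArg Subtype.val (hι h1)
  have hker : ∀ x : A, π x = 1 ↔ x ∈ Subgroup.center A := by
    intro x
    constructor
    · intro hx
      rw [Subgroup.mem_center_iff]
      intro y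
      apply hι
      rw [map_mul, map_mul]
      refine Prod.ext (mul_comm _ _) ?_
      show (ι y).2 * (ι x).2 = (ι x).2 * (ι y).2
      rw [← hπι x, hx, mul_one, one_mul]
    · intro hx
      rw [Subgroup.mem_center_iff] at hx
      by_contra hne'
      have h1 := hx ⟨a, ha⟩
      have h2 := hx ⟨b, hb⟩
      refine hnc (free_trans hne' ?_ ?_)
      · rw [← map_mul, ← map_mul, h1]
      · rw [← map_mul, ← map_mul, h2]
  obtain ⟨Zc, hZc⟩ : ∃ Zc : Subgroup J, Zc = (Subgroup.center A).map A.subtype := ⟨_, rfl⟩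
  have hmem : ∀ x : A, (x : J) ∈ Zc ↔ π x = 1 := by
    intro x
    rw [hker, hZc]
    constructor
    · rintro ⟨y, hy, hyx⟩
      have h1 : y = x := Subtype.ext hyx
      rwa [← h1]
    · intro hx
      exact ⟨x, hx, rfl⟩
  have hZA : Zc ≤ A := by
    rw [hZc]
    rintro _ ⟨y, _, rfl⟩
    exact y.2
  have hZn : Zc.Normal := by
    refine ⟨fun x hx j => ?_⟩
    have hxA := hZA hx
    have h1 := (hker ⟨x, hxA⟩).1 ((hmem ⟨x, hxA⟩).1 hx)
    have h2 : (⟨j * x * j⁻¹, hA.conj_mem x hxA j⟩ : A) ∈ Subgroup.center A := by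
      rw [Subgroup.mem_center_iff] at h1 ⊢
      intro y
      have h3 := h1 ⟨j⁻¹ * (y : J) * j, by
        have := hA.conj_mem y y.2 j⁻¹
        rwa [inv_inv] at this⟩
      have h4 : j⁻¹ * (y : J) * j * x = x * (j⁻¹ * (y : J) * j) := congrArg Subtype.val h3
      apply Subtype.ext
      show (y : J) * (j * x * j⁻¹) = j * x * j⁻¹ * (y : J)
      calc (y : J) * (j * x * j⁻¹) = j * (j⁻¹ * (y : J) * j * x) * j⁻¹ := by group
        _ = j * x * j⁻¹ * (y : J) := by
          rw [h4]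
          group
    rw [hZc]
    exact ⟨_, h2, rfl⟩
  -- the quotient by the centre
  have hDn : (A.map (QuotientGroup.mk' Zc)).Normal :=
    Subgroup.Normal.map inferInstance _ (QuotientGroup.mk'_surjective _)
  obtain ⟨D, hD⟩ : ∃ D : Subgroup (J ⧸ Zc), D = A.map (QuotientGroup.mk' Zc) := ⟨_, rfl⟩
  rw [← hD] at hDn
  have hfree : IsFreeGroup D := by
    -- `D` is isomorphic to the range of `π`
    obtain ⟨q, hq⟩ : ∃ q : A →* D, ∀ x, ((q x : D) : J ⧸ Zc) = QuotientGroup.mk' Zc (x : J) := by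
      refine ⟨((QuotientGroup.mk' Zc).comp A.subtype).codRestrict D fun x => ?_, fun x => rfl⟩
      rw [hD]
      exact ⟨x, x.2, rfl⟩
    have hqs : Function.Surjective q := by
      rintro ⟨y, hy⟩
      rw [hD] at hy
      obtain ⟨x, hx, rfl⟩ := hy
      exact ⟨⟨x, hx⟩, Subtype.ext (hq _)⟩
    have hqk : q.ker = π.ker := by
      ext x
      rw [MonoidHom.mem_ker, MonoidHom.mem_ker, ← hmem]
      constructor
      · intro h
        have h1 := hq x
        rw [h] at h1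
        exact (QuotientGroup.eq_one_iff _).1 h1.symm
      · intro h
        apply Subtype.ext
        rw [hq]
        exact (QuotientGroup.eq_one_iff _).2 h
    have e1 : D ≃* A ⧸ q.ker := (QuotientGroup.quotientKerEquivOfSurjective q hqs).symm
    have e2 : A ⧸ q.ker ≃* A ⧸ π.ker := QuotientGroup.quotientMulEquivOfEq hqk
    have e3 : A ⧸ π.ker ≃* π.range := QuotientGroup.quotientKerEquivRange π
    have : IsFreeGroup π.range := inferInstance
    exact IsFreeGroup.ofMulEquiv ((e1.trans e2).trans e3).symm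
  have hCQ : C ((J ⧸ Zc) ⧸ D) := by
    subst hD
    refine C_equiv hC.base (QuotientGroup.quotientQuotientEquivQuotient Zc A hZA) ?_
    have h1 : Subgroup.zpowers (g : J ⧸ A) = ⊤ := by
      rw [eq_top_iff]
      rintro x -
      obtain ⟨x, rfl⟩ := QuotientGroup.mk_surjective x
      obtain ⟨a, ha, _, ⟨i, rfl⟩, rfl⟩ := mem_sup_normal.1 (hg x)
      refine ⟨i, ?_⟩
      show (g : J ⧸ A) ^ i = ((a * g ^ i : J) : J ⧸ A)
      rw [QuotientGroup.mk_mul, (QuotientGroup.eq_one_iff a).2 ha, one_mul]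
      rfl
    have h2 := C_cyc hC.base (g : J ⧸ A)
    rw [h1] at h2
    exact C_equiv hC.base Subgroup.topEquiv.symm h2
  have hCJ : C (J ⧸ Zc) := free_ext hC hF D hCQ
  refine ab_ext hC hM Zc ?_ hCJ
  intro x hx y hy
  have h1 := (hker ⟨x, hZA hx⟩).1 ((hmem ⟨x, hZA hx⟩).1 hx)
  rw [Subgroup.mem_center_iff] at h1
  exact (congrArg Subtype.val (h1 ⟨y, hZA hy⟩)).symm

/-- **vertex groups which embed in the product of an abelian and a free group** -/
theorem vert (hC : ClosedE C) (hM : ∀ (G : Type) [Group G], derivedSeries G 2 = ⊥ → C G)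
    (hF : FbC C) {G Z X : Type} [Group G] [CommGroup Z] (A : Subgroup G) (g : G)
    (hg : ∀ x ∈ A, g * x * g⁻¹ ∈ A) (hg' : ∀ x ∈ A, g⁻¹ * x * g ∈ A) (ι : A →* Z × FreeGroup X)
    (hι : Function.Injective ι) : C ↥(A ⊔ Subgroup.zpowers g) := by
  obtain ⟨J, hJ⟩ : ∃ J : Subgroup G, J = A ⊔ Subgroup.zpowers g := ⟨_, rfl⟩
  rw [← hJ]
  have hAJ : A ≤ J := by
    rw [hJ]
    exact le_sup_left
  have hgJ : g ∈ J := by
    rw [hJ]
    exact Subgroup.mem_sup_right (Subgroup.mem_zpowers g)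
  have hnorm : J ≤ Subgroup.normalizer (A : Set G) := by
    rw [hJ]
    refine sup_le Subgroup.le_normalizer ?_
    rw [Subgroup.zpowers_le, Subgroup.mem_normalizer_iff]
    intro x
    constructor
    · exact hg x
    · intro h
      have := hg' _ h
      have h2 : g⁻¹ * (g * x * g⁻¹) * g = x := by group
      rwa [h2] at this
  have hAn : (A.subgroupOf J).Normal := Subgroup.normal_subgroupOf_iff_le_normalizer hAJ |>.2 hnorm
  have e : A.subgroupOf J ≃* A := Subgroup.subgroupOfEquivOfLe hAJ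
  refine vert' hC hM hF (J := J) (A.subgroupOf J) ⟨g, hgJ⟩ ?_ (ι.comp e.toMonoidHom)
    (hι.comp e.injective)
  rintro ⟨x, hx⟩
  have h1 : (A.subgroupOf J ⊔ Subgroup.zpowers (⟨g, hgJ⟩ : J)).map J.subtype = J := by
    rw [Subgroup.map_sup, MonoidHom.map_zpowers, Subgroup.subgroupOf_map_subtype,
      inf_eq_left.2 hAJ]
    exact hJ.symm
  have h2 : x ∈ (A.subgroupOf J ⊔ Subgroup.zpowers (⟨g, hgJ⟩ : J)).map J.subtype := by
    rw [h1]
    exact hx
  obtain ⟨y, hy, hyx⟩ := h2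
  have h3 : y = ⟨x, hx⟩ := Subtype.ext hyx
  rwa [← h3]

end Pool.Agent.Run7.h650.GM
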